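import Pool.Agent.Q285.HS.Lin

/-!
# Convergence to the Brownian motion over boxes under a Lindeberg type condition
-/

set_option autoImplicit false
set_option linter.unusedSectionVars false

namespace Q285HS

open Finset Filter MeasureTheory
open scoped NNReal Topology
open Q282.CL
open Q282.BP (bx mem_bx card_bx PP)
open Q282.GK (kbox mean_res)

/-- the data -/
structure DatB (κ : Type) [Fintype κ] [DecidableEq κ] (C₂ C₄ : ℝ) (β : ℕ) (I : Finset ℝ≥0) where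
  /-- the precision -/
  n : ℕ
  /-- the length -/
  X : ℕ
  /-- the corner -/
  N : κ → ℤ
  /-- the sides -/
  L : κ → ℕ
  /-- the local functions -/
  H : (p : ℕ) → (κ → ZMod p) → ℝ
  /-- the weights -/
  lam : ℕ → ℝ
  /-- the times -/
  a : I → ℕ
  lin : Lin κ C₂ C₄ β n X L H lam
  ha : ∀ s, a s ≤ X
  hv : ∀ s t : I, |∑ p ∈ PP (min (a s) (a t)), lam p ^ 2 * mn (fun p u => H p u ^ 2) p -
    ((min (s : ℝ≥0) (t : ℝ≥0) : ℝ≥0) : ℝ)| ≤ 1 / (n + 1)

variable {κ : Type} [Fintype κ] [DecidableEq κ] {C₂ C₄ : ℝ} {β : ℕ} {I : Finset ℝ≥0}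

lemma DatB.pos (b : DatB κ C₂ C₄ β I) (i : κ) : 0 < b.L i := by
  have h1 := b.lin.hL i
  have h2 : (0 : ℝ) < (b.X : ℝ) ^ b.n := by
    have : (0 : ℝ) < b.X := by
      have := b.lin.hX
      exact_mod_cast (by omega : 0 < b.X)
    positivity
  exact_mod_cast h2.trans_le h1

instance (b : DatB κ C₂ C₄ β I) : Nonempty (kbox b.N b.L) := kbox_nonempty b.pos

/-- the vector -/
noncomputable def DatB.vec (b : DatB κ C₂ C₄ β I) (t : κ → ℤ) : EuclideanSpace ℝ I :=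
  WithLp.toLp 2 fun s : I => ∑ p ∈ PP (b.a s), b.lam p * b.H p (fun i => (t i : ZMod p))

lemma chr_datB (hC₂ : 0 ≤ C₂) (hC₄ : 0 ≤ C₄) (x : EuclideanSpace ℝ I) (ε : ℝ) (hε : 0 < ε) :
    ∃ n₀ : ℕ, ∀ b : DatB κ C₂ C₄ β I, n₀ ≤ b.n →
      ‖charFun (lw (fun t : kbox b.N b.L => b.vec t) : Measure (EuclideanSpace ℝ I)) x -
        charFun (nuE I : Measure (EuclideanSpace ℝ I)) x‖ ≤ ε := by
  classical
  obtain ⟨R, hR⟩ : ∃ R : ℝ, R = ∑ s, |x s| + 1 := ⟨_, rfl⟩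
  have hR0 : 0 < R := by
    have : 0 ≤ ∑ s, |x s| := sum_nonneg fun s _ => abs_nonneg _
    rw [hR]
    linarith
  obtain ⟨n₁, h⟩ := chr_lin (κ := κ) β C₂ C₄ R (ε / 2) hC₂ hC₄ hR0 (by positivity)
  obtain ⟨n₂, hn₂⟩ := exists_nat_ge (R ^ 2 / ε)
  refine ⟨max n₁ n₂, fun b hb => ?_⟩
  have hnn₂ : (n₂ : ℝ) ≤ b.n := by exact_mod_cast (le_max_right _ _).trans hb
  have hn0 : (0 : ℝ) < b.n + 1 := by positivity
  have hs : R ^ 2 * (1 / (b.n + 1 : ℝ)) ≤ ε := by
    have h1 : R ^ 2 / ε ≤ b.n + 1 := by linarith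
    rw [div_le_iff₀ hε] at h1
    rw [mul_one_div, div_le_iff₀ hn0]
    linarith
  have h1 := h b.n ((le_max_left _ _).trans hb) b.X b.N b.L b.H b.lam b.lin (fun p => wt b.a x p * b.lam p) (fun p => by
    rw [abs_mul]
    refine mul_le_mul_of_nonneg_right ((wt_le b.a x p).trans ?_) (abs_nonneg _)
    rw [hR]
    linarith)
  have hin : ∀ t : κ → ℤ, (inner ℝ (b.vec t) x : ℝ) = ∑ p ∈ PP b.X, wt b.a x p * b.lam p * b.H p (fun i => (t i : ZMod p)) := by
    intro t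
    have h2 := wt_sum (X := b.X) b.a b.ha x fun p => b.lam p * b.H p (fun i => (t i : ZMod p))
    simp only [← mul_assoc] at h2
    rw [h2, PiLp.inner_apply]
    refine sum_congr rfl fun s _ => ?_
    rw [RCLike.inner_apply, conj_trivial]
    show x s * ∑ p ∈ PP (b.a s), b.lam p * b.H p (fun i => (t i : ZMod p)) = _
    rfl
  have e1 : charFun (lw (fun t : kbox b.N b.L => b.vec t) : Measure (EuclideanSpace ℝ I)) x =
      av (fun t : kbox b.N b.L => Complex.exp (((∑ p ∈ PP b.X, wt b.a x p * b.lam p * b.H p (fun i => ((t : κ → ℤ) i : ZMod p)) : ℝ) : ℂ) * Complex.I)) := by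
    rw [chr_lw]
    congr 1
    funext t
    rw [hin]
  have e2 : ‖Complex.exp ((-((∑ p ∈ PP b.X, (wt b.a x p * b.lam p) ^ 2 * mn (fun p u => b.H p u ^ 2) p) / 2) : ℝ) : ℂ) -
      charFun (nuE I : Measure (EuclideanSpace ℝ I)) x‖ ≤ ε / 2 := by
    rw [chr_nuE]
    obtain ⟨q, hq⟩ : ∃ q : ℝ, q = ∑ s : I, ∑ t : I, x s * x t * ((min (s : ℝ≥0) (t : ℝ≥0) : ℝ≥0) : ℝ) := ⟨_, rfl⟩
    rw [← hq]
    have hq0 : 0 ≤ q := by
      have h2 := norm_charFun_le_one (μ := (nuE I : Measure (EuclideanSpace ℝ I))) x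
      rw [chr_nuE, ← hq, ← Complex.ofReal_exp, Complex.norm_real, Real.norm_of_nonneg (Real.exp_pos _).le,
        Real.exp_le_one_iff] at h2
      linarith
    obtain ⟨u, hu⟩ : ∃ u : ℝ, u = ∑ p ∈ PP b.X, (wt b.a x p * b.lam p) ^ 2 * mn (fun p u => b.H p u ^ 2) p := ⟨_, rfl⟩
    rw [← hu]
    have hu0 : 0 ≤ u := by
      rw [hu]
      refine sum_nonneg fun p hp => mul_nonneg (sq_nonneg _) ?_
      have : Fact p.Prime := ⟨(mem_filter.1 hp).2⟩
      rw [mn_eq (fun p u => b.H p u ^ 2)]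
      exact av_nonneg fun u => sq_nonneg _
    have hclose : |u - q| ≤ R ^ 2 * (1 / (b.n + 1 : ℝ)) := by
      have h2 : u = ∑ s, ∑ t, x s * x t * ∑ p ∈ PP (min (b.a s) (b.a t)), b.lam p ^ 2 * mn (fun p u => b.H p u ^ 2) p := by
        rw [hu, ← wt_sq (X := b.X) b.a b.ha x fun p => b.lam p ^ 2 * mn (fun p u => b.H p u ^ 2) p]
        refine sum_congr rfl fun p _ => ?_
        ring
      rw [h2, hq, ← sum_sub_distrib]
      refine (abs_sum_le_sum_abs _ _).trans ?_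
      have h3 : ∀ s : I, |∑ t : I, x s * x t * ∑ p ∈ PP (min (b.a s) (b.a t)), b.lam p ^ 2 * mn (fun p u => b.H p u ^ 2) p -
          ∑ t : I, x s * x t * ((min (s : ℝ≥0) (t : ℝ≥0) : ℝ≥0) : ℝ)| ≤ |x s| * (R * (1 / (b.n + 1 : ℝ))) := by
        intro s
        rw [← sum_sub_distrib]
        refine (abs_sum_le_sum_abs _ _).trans ?_
        have h4 : ∀ t : I, |x s * x t * ∑ p ∈ PP (min (b.a s) (b.a t)), b.lam p ^ 2 * mn (fun p u => b.H p u ^ 2) p -
            x s * x t * ((min (s : ℝ≥0) (t : ℝ≥0) : ℝ≥0) : ℝ)| ≤ |x s| * (|x t| * (1 / (b.n + 1 : ℝ))) := by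
          intro t
          rw [← mul_sub, abs_mul, abs_mul, mul_assoc]
          exact mul_le_mul_of_nonneg_left (mul_le_mul_of_nonneg_left (b.hv s t) (abs_nonneg _)) (abs_nonneg _)
        refine (sum_le_sum fun t _ => h4 t).trans ?_
        rw [← mul_sum, ← sum_mul]
        refine mul_le_mul_of_nonneg_left (mul_le_mul_of_nonneg_right ?_ (by positivity)) (abs_nonneg _)
        rw [hR]
        linarith
      refine (sum_le_sum fun s _ => h3 s).trans ?_
      rw [← sum_mul, sq, mul_assoc]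
      refine mul_le_mul_of_nonneg_right ?_ (by positivity)
      rw [hR]
      linarith
    rw [← Complex.ofReal_exp, ← Complex.ofReal_exp, ← Complex.ofReal_sub, Complex.norm_real, Real.norm_eq_abs]
    refine (exp_sub_exp (by positivity) (by positivity)).trans ?_
    rw [← sub_div, abs_div, abs_of_pos (by norm_num : (0 : ℝ) < 2)]
    linarith
  rw [e1]
  have t1 := norm_sub_le_norm_sub_add_norm_sub
    (av (fun t : kbox b.N b.L => Complex.exp (((∑ p ∈ PP b.X, wt b.a x p * b.lam p * b.H p (fun i => ((t : κ → ℤ) i : ZMod p)) : ℝ) : ℂ) * Complex.I)))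
    (Complex.exp ((-((∑ p ∈ PP b.X, (wt b.a x p * b.lam p) ^ 2 * mn (fun p u => b.H p u ^ 2) p) / 2) : ℝ) : ℂ))
    (charFun (nuE I : Measure (EuclideanSpace ℝ I)) x)
  linarith

open Classical in
/-- convergence to the finite-dimensional distributions of the Brownian motion -/
theorem brownB (hC₂ : 0 ≤ C₂) (hC₄ : 0 ≤ C₄) (hI : ∀ s ∈ I, 0 < s) (x : I → ℝ) (ε : ℝ) (hε : 0 < ε) :
    ∃ n₀ : ℕ, ∀ b : DatB κ C₂ C₄ β I, n₀ ≤ b.n →
      |(((kbox b.N b.L).filter fun t => ∀ s : I, ∑ p ∈ PP (b.a s), b.lam p * b.H p (fun i => (t i : ZMod p)) ≤ x s).card : ℝ) /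
        ∏ i, (b.L i : ℝ) - W I x| ≤ ε := by
  obtain ⟨X₁, h⟩ := levy (fun b : DatB κ C₂ C₄ β I => b.n) (fun b => lw (fun t : kbox b.N b.L => b.vec t)) (nuE I)
    (fun y δ hδ => chr_datB hC₂ hC₄ y δ hδ) (orth_frontier I hI x) hε
  refine ⟨X₁, fun b hb => ?_⟩
  have h1 := h b hb
  rw [lw_real _ (orth_closed I x).measurableSet, ← W_eq] at h1
  have h2 : ((univ.filter fun t : kbox b.N b.L => b.vec t ∈ orth I x).card : ℝ) =
      (((kbox b.N b.L).filter fun t => ∀ s : I, ∑ p ∈ PP (b.a s), b.lam p * b.H p (fun i => (t i : ZMod p)) ≤ x s).card : ℝ) := by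
    congr 1
    refine card_bij (fun t _ => t.1) ?_ ?_ ?_
    · intro t ht
      rw [mem_filter] at ht ⊢
      exact ⟨t.2, ht.2⟩
    · intro t _ t' _ h3
      exact Subtype.ext h3
    · intro t ht
      rw [mem_filter] at ht
      refine ⟨⟨t, ht.1⟩, ?_, rfl⟩
      rw [mem_filter]
      exact ⟨mem_univ _, ht.2⟩
  have h3 : (Fintype.card (kbox b.N b.L) : ℝ) = ∏ i, (b.L i : ℝ) := by
    rw [Fintype.card_coe]
    unfold kbox
    rw [Fintype.card_piFinset]
    push_cast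
    refine prod_congr rfl fun i _ => ?_
    rw [Int.card_Ico, add_sub_cancel_left, Int.toNat_natCast]
  rw [h2, h3] at h1
  exact h1

end Q285HS
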