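import Pool.Agent.Q285.HS.Brw

/-!
# Brownian limits for sums over primes of local functions with bounded fourth moments
-/

set_option autoImplicit false
set_option linter.unusedSectionVars false

namespace Q285HS

open Finset Filter
open scoped NNReal Topology
open Q282.CL
open Q282.BP (PP)
open Q282.GK (kbox)
open Q285NG (lm sf sf_tendsto lm_abs log_sq av_abs_le)

/-- equal weights -/
noncomputable def le (X p : ℕ) : ℝ := if p ≤ X then Real.sqrt (Real.log X / X) else 0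

/-- admissible weights -/
structure Wgt (lam : ℕ → ℕ → ℝ) : Prop where
  le : ∀ X : ℕ, 2 ≤ X → ∀ p, |lam X p| ≤ Real.sqrt (Real.log X / X)
  sq : ∀ s : ℝ, 0 < s → s ≤ 1 → Tendsto (fun X : ℕ => ∑ p ∈ PP ⌊s * X⌋₊, lam X p ^ 2) atTop (𝓝 s)

lemma wgt_lm : Wgt lm := ⟨fun _ hX p => lm_abs hX p, fun s hs hs1 => log_sq s hs hs1⟩

lemma card_tendsto (s : ℝ) (hs : 0 < s) :
    Tendsto (fun X : ℕ => (Nat.primeCounting ⌊s * (X : ℝ)⌋₊ : ℝ) * Real.log X / X) atTop (𝓝 s) := by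
  have hsX : Tendsto (fun X : ℕ => s * (X : ℝ)) atTop atTop := tendsto_natCast_atTop_atTop.const_mul_atTop hs
  have h1 := Pool.Agent.Helper923.PNT.pi_tendsto.comp hsX
  have h2 : Tendsto (fun X : ℕ => Real.log (s * X)) atTop atTop := Real.tendsto_log_atTop.comp hsX
  have h3 : Tendsto (fun X : ℕ => 1 - Real.log s / Real.log (s * X)) atTop (𝓝 (1 - 0)) :=
    tendsto_const_nhds.sub (h2.const_div_atTop _)
  have h4 := (h1.const_mul s).mul h3
  rw [mul_one, sub_zero, mul_one] at h4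
  refine h4.congr' ?_
  filter_upwards [eventually_ge_atTop 1, h2.eventually_gt_atTop 0] with X hX hl
  have hX1 : (0 : ℝ) < X := by exact_mod_cast hX
  have h5 : Real.log (s * X) = Real.log s + Real.log X := Real.log_mul hs.ne' hX1.ne'
  show s * ((Nat.primeCounting ⌊s * (X : ℝ)⌋₊ : ℝ) * Real.log (s * X) / (s * X)) * (1 - Real.log s / Real.log (s * X)) = _
  have h6 : 1 - Real.log s / Real.log (s * X) = Real.log X / Real.log (s * X) := by
    rw [eq_div_iff hl.ne', sub_mul, div_mul_cancel₀ _ hl.ne', h5]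
    ring
  rw [h6]
  field_simp

lemma wgt_le : Wgt le := by
  refine ⟨fun X _ p => ?_, fun s hs hs1 => ?_⟩
  · unfold le
    split_ifs
    · rw [abs_of_nonneg (Real.sqrt_nonneg _)]
    · rw [abs_zero]
      exact Real.sqrt_nonneg _
  · refine (card_tendsto s hs).congr' ?_
    filter_upwards [eventually_ge_atTop 2] with X hX
    have hX1 : (1 : ℝ) < X := by exact_mod_cast (by omega : 1 < X)
    have hl : 0 < Real.log X := Real.log_pos hX1
    have h1 : ∀ p ∈ PP ⌊s * (X : ℝ)⌋₊, le X p ^ 2 = Real.log X / X := fun p hp => by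
      have h2 : p ≤ X := by
        refine (mem_Icc.1 (mem_filter.1 hp).1).2.trans (Nat.floor_le_of_le ?_)
        nlinarith
      unfold le
      rw [if_pos h2, Real.sq_sqrt (by positivity)]
    rw [sum_congr rfl h1, sum_const, Q285NG.card_PP, nsmul_eq_mul]
    ring

/-- the sum of `1 / √p` -/
noncomputable def rs (X : ℕ) : ℝ := ∑ p ∈ PP X, 1 / Real.sqrt p

lemma log_rs (X : ℕ) : ∑ p ∈ PP X, Real.log p / Real.sqrt p ≤ 10 * Real.sqrt X := by
  induction X using Nat.strong_induction_on with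
  | _ X ih =>
    rcases Nat.eq_zero_or_pos X with rfl | hX
    · have : PP 0 = ∅ := by
        unfold PP
        rw [filter_eq_empty_iff]
        intro p hp
        rw [mem_Icc] at hp
        have : p = 0 := by omega
        rw [this]
        exact Nat.not_prime_zero
      rw [this, sum_empty]
      positivity
    · have h1 := ih (X / 2) (Nat.div_lt_self hX one_lt_two)
      have hsub : PP (X / 2) ⊆ PP X := filter_subset_filter _ (Icc_subset_Icc_right (Nat.div_le_self X 2))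
      rw [← sum_sdiff hsub]
      have hX0 : (0 : ℝ) < X := by exact_mod_cast hX
      have h2 : ∑ p ∈ PP X \ PP (X / 2), Real.log p / Real.sqrt p ≤ (1 / Real.sqrt (X / 2)) * ∑ p ∈ PP X \ PP (X / 2), Real.log p := by
        rw [mul_sum]
        refine sum_le_sum fun p hp => ?_
        replace hp := Finset.mem_sdiff.1 hp
        have hp1 : X / 2 < p := by
          by_contra h
          rw [not_lt] at h
          refine hp.2 (mem_filter.2 ⟨mem_Icc.2 ⟨(mem_Icc.1 (mem_filter.1 hp.1).1).1, h⟩, (mem_filter.1 hp.1).2⟩)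
        have hp2 : (X : ℝ) / 2 ≤ p := by
          have : X < 2 * p := by omega
          have : (X : ℝ) < 2 * p := by exact_mod_cast this
          linarith
        rw [div_eq_mul_one_div, mul_comm]
        refine mul_le_mul_of_nonneg_right ?_ (Real.log_natCast_nonneg p)
        exact one_div_le_one_div_of_le (Real.sqrt_pos.2 (by positivity)) (Real.sqrt_le_sqrt hp2)
      have h3 : ∑ p ∈ PP X \ PP (X / 2), Real.log p ≤ 1.39 * X := by
        refine (sum_le_sum_of_subset_of_nonneg sdiff_subset fun p _ _ => Real.log_natCast_nonneg p).trans ?_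
        rw [← Q285NG.theta_PP]
        refine (Chebyshev.theta_le_log4_mul_x hX0.le).trans (mul_le_mul_of_nonneg_right ?_ hX0.le)
        have : Real.log 4 = 2 * Real.log 2 := by
          rw [show (4 : ℝ) = 2 ^ 2 by norm_num, Real.log_pow]
          norm_num
        rw [this]
        have := Real.log_two_lt_d9
        linarith
      have h4 : Real.sqrt ((X / 2 : ℕ) : ℝ) ≤ 0.7072 * Real.sqrt X := by
        have h5 : ((X / 2 : ℕ) : ℝ) ≤ X / 2 := Nat.cast_div_le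
        refine (Real.sqrt_le_sqrt h5).trans ?_
        rw [Real.sqrt_le_left (by positivity), mul_pow, Real.sq_sqrt hX0.le]
        nlinarith
      have h5 : (1 / Real.sqrt (X / 2)) * (1.39 * X) ≤ 1.97 * Real.sqrt X := by
        have h6 : (0.707 : ℝ) * Real.sqrt X ≤ Real.sqrt (X / 2) := by
          refine Real.le_sqrt_of_sq_le ?_
          rw [mul_pow, Real.sq_sqrt hX0.le]
          nlinarith
        have h7 : 0 < Real.sqrt X := Real.sqrt_pos.2 hX0
        rw [one_div, inv_mul_le_iff₀ (Real.sqrt_pos.2 (by positivity))]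
        have h8 : Real.sqrt X * Real.sqrt X = X := Real.mul_self_sqrt hX0.le
        nlinarith
      have h6 : (1 / Real.sqrt ((X : ℝ) / 2)) * ∑ p ∈ PP X \ PP (X / 2), Real.log p ≤ (1 / Real.sqrt (X / 2)) * (1.39 * X) :=
        mul_le_mul_of_nonneg_left h3 (by positivity)
      have h7 := Real.sqrt_nonneg (X : ℝ)
      linarith

/-- the size of the smallest errors -/
noncomputable def gf (X : ℕ) : ℝ := Real.sqrt (Real.log X / X) * rs X

lemma rs_nonneg (X : ℕ) : 0 ≤ rs X := sum_nonneg fun _ _ => by positivity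

lemma rs_le (X : ℕ) (hX : 2 ≤ X) : rs X ≤ 3 * Real.sqrt (Real.sqrt X) + 20 * Real.sqrt X / Real.log X := by
  have hX1 : (1 : ℝ) < X := by exact_mod_cast (by omega : 1 < X)
  have hl : 0 < Real.log X := Real.log_pos hX1
  obtain ⟨Y, hY⟩ : ∃ Y : ℕ, Y = Nat.sqrt X := ⟨_, rfl⟩
  have hYX : Y ≤ X := by
    rw [hY]
    exact Nat.sqrt_le_self X
  have hsub : PP Y ⊆ PP X := filter_subset_filter _ (Icc_subset_Icc_right hYX)
  unfold rs
  rw [← sum_sdiff hsub]
  have h1 : ∑ p ∈ PP Y, 1 / Real.sqrt (p : ℝ) ≤ 2 * Real.sqrt Y := by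
    have h2 : ∀ n : ℕ, ∑ p ∈ Icc 1 n, 1 / Real.sqrt (p : ℝ) ≤ 2 * Real.sqrt n := by
      intro n
      induction n with
      | zero => simp
      | succ n ih =>
        rw [sum_Icc_succ_top (by omega)]
        have h3 : (0 : ℝ) < ((n + 1 : ℕ) : ℝ) := by positivity
        have h4 := Real.sqrt_pos.2 h3
        have h5 : 1 / Real.sqrt ((n + 1 : ℕ) : ℝ) ≤ 2 * (Real.sqrt ((n + 1 : ℕ) : ℝ) - Real.sqrt n) := by
          rw [div_le_iff₀ h4]
          have h6 : Real.sqrt ((n + 1 : ℕ) : ℝ) * Real.sqrt ((n + 1 : ℕ) : ℝ) = n + 1 := by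
            rw [Real.mul_self_sqrt h3.le]
            push_cast
            rfl
          have h7 : Real.sqrt (n : ℝ) * Real.sqrt (n : ℝ) = n := Real.mul_self_sqrt (Nat.cast_nonneg n)
          nlinarith [sq_nonneg (Real.sqrt ((n + 1 : ℕ) : ℝ) - Real.sqrt n)]
        linarith
    refine le_trans (sum_le_sum_of_subset_of_nonneg (filter_subset _ _) fun i _ _ => by positivity) (h2 Y)
  have h2 : Real.sqrt (Y : ℝ) ≤ Real.sqrt (Real.sqrt X) := by
    refine Real.sqrt_le_sqrt (Real.le_sqrt_of_sq_le ?_)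
    rw [hY]
    exact_mod_cast (by rw [pow_two]; exact Nat.sqrt_le X : Nat.sqrt X ^ 2 ≤ X)
  have h3 : ∑ p ∈ PP X \ PP Y, 1 / Real.sqrt (p : ℝ) ≤ ∑ p ∈ PP X \ PP Y, (2 / Real.log X) * (Real.log p / Real.sqrt p) := by
    refine sum_le_sum fun p hp => ?_
    replace hp := Finset.mem_sdiff.1 hp
    have hp1 : Y < p := by
      by_contra h
      rw [not_lt] at h
      refine hp.2 (mem_filter.2 ⟨mem_Icc.2 ⟨(mem_Icc.1 (mem_filter.1 hp.1).1).1, h⟩, (mem_filter.1 hp.1).2⟩)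
    have hp2 : (X : ℝ) ≤ (p : ℝ) ^ 2 := by
      have : X < p * p := by
        rw [hY] at hp1
        exact Nat.sqrt_lt.1 hp1
      have : X ≤ p ^ 2 := by nlinarith
      exact_mod_cast this
    have hp0 : (0 : ℝ) < p := by exact_mod_cast (by omega : 0 < p)
    have h4 : Real.log X ≤ 2 * Real.log p := by
      have := Real.log_le_log (by linarith) hp2
      rw [Real.log_pow] at this
      exact_mod_cast this
    have h5 : (2 / Real.log X) * (Real.log p / Real.sqrt p) = (2 * Real.log p / Real.log X) * (1 / Real.sqrt p) := by ring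
    rw [h5]
    have h6 : 1 ≤ 2 * Real.log p / Real.log X := by
      rw [le_div_iff₀ hl]
      linarith
    have h7 : 0 ≤ 1 / Real.sqrt (p : ℝ) := by positivity
    nlinarith
  have h4 : ∑ p ∈ PP X \ PP Y, (2 / Real.log X) * (Real.log p / Real.sqrt p) ≤ (2 / Real.log X) * (10 * Real.sqrt X) := by
    rw [← mul_sum]
    refine mul_le_mul_of_nonneg_left (le_trans (sum_le_sum_of_subset_of_nonneg sdiff_subset fun p _ _ => ?_) (log_rs X)) (by positivity)
    exact div_nonneg (Real.log_natCast_nonneg p) (Real.sqrt_nonneg _)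
  have h5 : (2 / Real.log X) * (10 * Real.sqrt X) = 20 * Real.sqrt X / Real.log X := by ring
  have h6 := Real.sqrt_nonneg (Real.sqrt (X : ℝ))
  linarith

lemma gf_tendsto : Tendsto gf atTop (𝓝 0) := by
  have hl : Tendsto (fun X : ℕ => Real.log (X : ℝ)) atTop atTop := Real.tendsto_log_atTop.comp tendsto_natCast_atTop_atTop
  have h1 : Tendsto (fun X : ℕ => 20 / Real.sqrt (Real.log X)) atTop (𝓝 0) :=
    (Real.tendsto_sqrt_atTop.comp hl).const_div_atTop 20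
  have h2 : Tendsto (fun X : ℕ => 3 * Real.sqrt (Real.log X / Real.sqrt X)) atTop (𝓝 (3 * Real.sqrt 0)) := by
    refine Tendsto.const_mul 3 ((Real.continuous_sqrt.tendsto 0).comp ?_)
    have h3 := (isLittleO_log_rpow_atTop (r := 1 / 2) (by norm_num)).tendsto_div_nhds_zero.comp (tendsto_natCast_atTop_atTop (R := ℝ))
    refine h3.congr fun X => ?_
    show Real.log (X : ℝ) / (X : ℝ) ^ ((1 : ℝ) / 2) = _
    rw [Real.sqrt_eq_rpow]
  rw [Real.sqrt_zero, mul_zero] at h2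
  have h3 := h2.add h1
  rw [add_zero] at h3
  refine squeeze_zero' (Eventually.of_forall fun X => mul_nonneg (Real.sqrt_nonneg _) (rs_nonneg X)) ?_ h3
  filter_upwards [eventually_ge_atTop 2] with X hX
  have hX1 : (1 : ℝ) < X := by exact_mod_cast (by omega : 1 < X)
  have hX0 : (0 : ℝ) < X := by linarith
  have hl : 0 < Real.log X := Real.log_pos hX1
  have h4 := mul_le_mul_of_nonneg_left (rs_le X hX) (Real.sqrt_nonneg (Real.log X / X))
  unfold gf
  refine h4.trans (le_of_eq ?_)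
  have e1 : Real.sqrt (Real.log X / X) * Real.sqrt (Real.sqrt X) = Real.sqrt (Real.log X / Real.sqrt X) := by
    rw [← Real.sqrt_mul (by positivity)]
    congr 1
    rw [div_mul_eq_mul_div, div_eq_div_iff hX0.ne' (Real.sqrt_pos.2 hX0).ne', mul_assoc, Real.mul_self_sqrt hX0.le]
  have e2 : Real.sqrt (Real.log X / X) * Real.sqrt X = Real.sqrt (Real.log X) := by
    rw [← Real.sqrt_mul (by positivity), div_mul_cancel₀ _ hX0.ne']
  have e3 : Real.sqrt (Real.log X) / Real.log X = 1 / Real.sqrt (Real.log X) := by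
    rw [div_eq_div_iff hl.ne' (Real.sqrt_pos.2 hl).ne', Real.mul_self_sqrt hl.le, one_mul]
  calc Real.sqrt (Real.log X / X) * (3 * Real.sqrt (Real.sqrt X) + 20 * Real.sqrt X / Real.log X) =
      3 * (Real.sqrt (Real.log X / X) * Real.sqrt (Real.sqrt X)) + 20 * ((Real.sqrt (Real.log X / X) * Real.sqrt X) / Real.log X) := by ring
    _ = _ := by
      rw [e1, e2, e3]
      ring

section

variable {lam : ℕ → ℕ → ℝ} (hlam : Wgt lam) {X : ℕ} (hX : 2 ≤ X)

include hlam hX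

lemma wgt_one (p : ℕ) : |lam X p| ≤ 1 := by
  refine (hlam.le X hX p).trans ?_
  have hX1 : (1 : ℝ) < X := by exact_mod_cast (by omega : 1 < X)
  rw [Real.sqrt_le_one, div_le_one (by linarith)]
  have := Real.log_le_sub_one_of_pos (by linarith : (0 : ℝ) < X)
  linarith

lemma wgt_sf (p : ℕ) : |lam X p| ≤ sf X := by
  refine (hlam.le X hX p).trans ?_
  have hl : 0 ≤ Real.log X := Real.log_natCast_nonneg X
  unfold sf
  nlinarith [Real.sqrt_nonneg (Real.log X / X)]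

lemma wgt_inv : ∑ p ∈ PP X, |lam X p| * (1 / Real.sqrt p) ≤ gf X := by
  unfold gf rs
  rw [mul_sum]
  exact sum_le_sum fun p _ => mul_le_mul_of_nonneg_right (hlam.le X hX p) (by positivity)

lemma wgt_sq_inv : ∑ p ∈ PP X, lam X p ^ 2 * (1 / Real.sqrt p) ≤ gf X := by
  refine le_trans (sum_le_sum fun p _ => ?_) (wgt_inv hlam hX)
  refine mul_le_mul_of_nonneg_right ?_ (by positivity)
  have := wgt_one hlam hX p
  rw [← sq_abs]
  nlinarith [abs_nonneg (lam X p)]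

lemma wgt_cube : ∑ p ∈ PP X, |lam X p| ^ 3 ≤ sf X * ∑ p ∈ PP X, lam X p ^ 2 := by
  rw [mul_sum]
  refine sum_le_sum fun p _ => ?_
  have h2 : |lam X p| ^ 3 = |lam X p| * lam X p ^ 2 := by
    rw [pow_succ' |lam X p| 2, sq_abs]
  rw [h2]
  exact mul_le_mul_of_nonneg_right (wgt_sf hlam hX p) (sq_nonneg _)

end

open Classical in
/-- **the engine** -/
theorem eng {κ : Type} [Fintype κ] [DecidableEq κ] {lam : ℕ → ℕ → ℝ} (hlam : Wgt lam) (H : (p : ℕ) → (κ → ZMod p) → ℝ) (β p₀ : ℕ) (K : ℝ)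
    (hK : 1 ≤ K) (hH : ∀ p : ℕ, p.Prime → ∀ u, |H p u| ≤ K * (p : ℝ) ^ β) (h1 : ∀ p : ℕ, p.Prime → p₀ ≤ p → |mn H p| ≤ K / Real.sqrt p)
    (h2 : ∀ p : ℕ, p.Prime → p₀ ≤ p → |mn (fun p u => H p u ^ 2) p - 1| ≤ K / Real.sqrt p)
    (h4 : ∀ p : ℕ, p.Prime → p₀ ≤ p → mn (fun p u => H p u ^ 4) p ≤ K)
    (I : Finset ℝ≥0) (hI : ∀ τ ∈ I, 0 < τ ∧ τ ≤ 1) (x : I → ℝ) (ε : ℝ) (hε : 0 < ε) :
    ∃ X₁ : ℕ, ∀ X : ℕ, X₁ ≤ X → ∀ (N : κ → ℤ) (L : κ → ℕ), (∀ i, (X : ℝ) ^ X₁ ≤ L i) →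
      |(((kbox N L).filter fun t => ∀ τ : I, ∑ p ∈ PP ⌊((τ : ℝ≥0) : ℝ) * X⌋₊, lam X p * H p (fun i => (t i : ZMod p)) ≤ x τ).card : ℝ) /
        ∏ i, (L i : ℝ) - W I x| ≤ ε := by
  have hK0 : 0 < K := by linarith
  obtain ⟨B, hB⟩ : ∃ B : ℝ, B = (K * (p₀ : ℝ) ^ β + 1) ^ 4 := ⟨_, rfl⟩
  have hB0 : 1 ≤ K * (p₀ : ℝ) ^ β + 1 := by
    have : 0 ≤ K * (p₀ : ℝ) ^ β := by positivity
    linarith
  have hB1 : 1 ≤ B := by
    rw [hB]
    exact one_le_pow₀ hB0
  -- the bounds at all primes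
  have hsmall : ∀ p : ℕ, p.Prime → p < p₀ → ∀ u, |H p u| ≤ K * (p₀ : ℝ) ^ β := fun p hp h u =>
    (hH p hp u).trans (mul_le_mul_of_nonneg_left (pow_le_pow_left₀ (Nat.cast_nonneg p) (by exact_mod_cast h.le) β) hK0.le)
  have hpp0 : ∀ p : ℕ, p.Prime → p < p₀ → (1 : ℝ) ≤ p₀ * (1 / Real.sqrt p) := fun p hp h => by
    have hp1 : (1 : ℝ) ≤ p := by exact_mod_cast hp.one_lt.le
    have hp0 : (0 : ℝ) < Real.sqrt p := Real.sqrt_pos.2 (by linarith)
    rw [mul_one_div, le_div_iff₀ hp0, one_mul]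
    refine le_trans ?_ (by exact_mod_cast h.le : (p : ℝ) ≤ p₀)
    rw [Real.sqrt_le_left (by linarith)]
    nlinarith
  obtain ⟨M, hM⟩ : ∃ M : ℝ, M = K + (B + 1) * p₀ := ⟨_, rfl⟩
  have hM0 : 0 < M := by
    rw [hM]
    positivity
  have hKM : K ≤ M := by
    rw [hM]
    have : 0 ≤ (B + 1) * (p₀ : ℝ) := by positivity
    linarith
  have hbig : ∀ p : ℕ, p.Prime → ∀ y : ℝ, y ≤ K / Real.sqrt p → y ≤ M * (1 / Real.sqrt p) := fun p hp y hy => by
    have hp0 : (0 : ℝ) < Real.sqrt p := Real.sqrt_pos.2 (by exact_mod_cast hp.pos)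
    rw [mul_one_div]
    exact hy.trans (div_le_div_of_nonneg_right hKM hp0.le)
  have hsm : ∀ p : ℕ, p.Prime → p < p₀ → ∀ y : ℝ, y ≤ B + 1 → y ≤ M * (1 / Real.sqrt p) := fun p hp h y hy => by
    have hp0 : (0 : ℝ) < Real.sqrt p := Real.sqrt_pos.2 (by exact_mod_cast hp.pos)
    have h3 := hpp0 p hp h
    have h5 : (B + 1) * 1 ≤ (B + 1) * (p₀ * (1 / Real.sqrt (p : ℝ))) := mul_le_mul_of_nonneg_left h3 (by linarith)
    have h6 : (B + 1) * (p₀ * (1 / Real.sqrt (p : ℝ))) ≤ M * (1 / Real.sqrt p) := by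
      rw [hM]
      have : 0 ≤ K * (1 / Real.sqrt (p : ℝ)) := by positivity
      nlinarith
    linarith
  have g1 : ∀ p : ℕ, p.Prime → |mn H p| ≤ M * (1 / Real.sqrt p) := fun p hp => by
    by_cases h : p₀ ≤ p
    · exact hbig p hp _ (h1 p hp h)
    · rw [not_le] at h
      have : Fact p.Prime := ⟨hp⟩
      refine hsm p hp h _ ?_
      rw [mn_eq]
      refine (av_abs_le _ _ (hsmall p hp h)).trans ?_
      have h5 : K * (p₀ : ℝ) ^ β + 1 ≤ B := by
        rw [hB]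
        exact le_self_pow₀ hB0 (by norm_num)
      linarith
  have g2 : ∀ p : ℕ, p.Prime → |mn (fun p u => H p u ^ 2) p - 1| ≤ M * (1 / Real.sqrt p) := fun p hp => by
    by_cases h : p₀ ≤ p
    · exact hbig p hp _ (h2 p hp h)
    · rw [not_le] at h
      have : Fact p.Prime := ⟨hp⟩
      refine hsm p hp h _ ?_
      rw [mn_eq (fun p u => H p u ^ 2)]
      have h3 := av_abs_le (fun u => H p u ^ 2) ((K * (p₀ : ℝ) ^ β) ^ 2) fun u => by
        rw [abs_pow]
        exact pow_le_pow_left₀ (abs_nonneg _) (hsmall p hp h u) 2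
      refine (abs_sub _ _).trans ?_
      rw [abs_one]
      have h5 : (K * (p₀ : ℝ) ^ β) ^ 2 ≤ B := by
        have h6 : (K * (p₀ : ℝ) ^ β) ^ 2 ≤ (K * (p₀ : ℝ) ^ β + 1) ^ 2 := pow_le_pow_left₀ (by positivity) (by linarith) 2
        refine h6.trans ?_
        rw [hB]
        exact pow_le_pow_right₀ hB0 (by norm_num)
      linarith
  obtain ⟨C₄, hC₄⟩ : ∃ C₄ : ℝ, C₄ = K + B := ⟨_, rfl⟩
  have hC₄0 : 0 ≤ C₄ := by
    rw [hC₄]
    linarith
  have g4 : ∀ p : ℕ, p.Prime → mn (fun p u => H p u ^ 4) p ≤ C₄ := fun p hp => by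
    by_cases h : p₀ ≤ p
    · have := h4 p hp h
      rw [hC₄]
      linarith
    · rw [not_le] at h
      have : Fact p.Prime := ⟨hp⟩
      rw [mn_eq (fun p u => H p u ^ 4)]
      have h3 := (abs_le.1 (av_abs_le (fun u => H p u ^ 4) ((K * (p₀ : ℝ) ^ β) ^ 4) fun u => by
        rw [abs_pow]
        exact pow_le_pow_left₀ (abs_nonneg _) (hsmall p hp h u) 4)).2
      have h6 : (K * (p₀ : ℝ) ^ β) ^ 4 ≤ (K * (p₀ : ℝ) ^ β + 1) ^ 4 := pow_le_pow_left₀ (by positivity) (by linarith) 4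
      rw [← hB] at h6
      rw [hC₄]
      linarith
  obtain ⟨n₀, hn₀⟩ := brownB (κ := κ) (C₂ := 2) (C₄ := C₄) (β := β + 1) (by norm_num) hC₄0 (fun τ hτ => (hI τ hτ).1) x ε hε
  have hn : (0 : ℝ) < n₀ + 1 := by positivity
  obtain ⟨δ, hδ⟩ : ∃ δ : ℝ, δ = 1 / (n₀ + 1) / (2 + 2 * M) := ⟨_, rfl⟩
  have hδ0 : 0 < δ := by
    rw [hδ]
    positivity
  have hδK : (2 + 2 * M) * δ = 1 / (n₀ + 1) := by
    rw [hδ]
    field_simp
  have e1 : ∀ᶠ X : ℕ in atTop, sf X ≤ δ := (sf_tendsto.eventually (gt_mem_nhds hδ0)).mono fun X hX => le_of_lt hX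
  have e4 : ∀ᶠ X : ℕ in atTop, gf X ≤ δ := (gf_tendsto.eventually (gt_mem_nhds hδ0)).mono fun X hX => le_of_lt hX
  have e2 : ∀ᶠ X : ℕ in atTop, ∑ p ∈ PP X, lam X p ^ 2 ≤ 2 := by
    have h1 := (hlam.sq 1 one_pos le_rfl).eventually (gt_mem_nhds (by norm_num : (1 : ℝ) < 2))
    refine h1.mono fun X hX => ?_
    rw [one_mul, Nat.floor_natCast] at hX
    exact hX.le
  have e3 : ∀ᶠ X : ℕ in atTop, ∀ τ : I, |∑ p ∈ PP ⌊((τ : ℝ≥0) : ℝ) * X⌋₊, lam X p ^ 2 - ((τ : ℝ≥0) : ℝ)| ≤ 1 / 2 * (1 / (n₀ + 1)) := by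
    rw [eventually_all]
    intro τ
    have h0 := hI τ τ.2
    have h1 := Metric.tendsto_nhds.1 (hlam.sq ((τ : ℝ≥0) : ℝ) (by exact_mod_cast h0.1) (by exact_mod_cast h0.2)) (1 / 2 * (1 / (n₀ + 1))) (by positivity)
    refine h1.mono fun X hX => ?_
    rw [Real.dist_eq] at hX
    exact hX.le
  obtain ⟨X₀, hX₀⟩ := eventually_atTop.1 (((e1.and e4).and e2).and e3)
  obtain ⟨k, hk⟩ := exists_nat_ge K
  refine ⟨max (max X₀ n₀) (k + 2), fun X hX N L hL => ?_⟩
  have hXX₀ : X₀ ≤ X := (le_max_left _ _).trans ((le_max_left _ _).trans hX)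
  have hXk : k + 2 ≤ X := (le_max_right _ _).trans hX
  obtain ⟨⟨⟨hsf, hgf⟩, hsum⟩, hlog⟩ := hX₀ X hXX₀
  have hX2 : 2 ≤ X := by omega
  have hX1 : (1 : ℝ) ≤ X := by exact_mod_cast (by omega : 1 ≤ X)
  have hXK : K ≤ X := hk.trans (by exact_mod_cast (by omega : k ≤ X))
  have hpp : ∀ p ∈ PP X, p.Prime ∧ p ≤ X := fun p hp => ⟨(mem_filter.1 hp).2, (mem_Icc.1 (mem_filter.1 hp).1).2⟩
  have hlin : Lin κ 2 C₄ (β + 1) n₀ X L H (lam X) := by
    refine ⟨hX2, fun i => (pow_le_pow_right₀ hX1 ((le_max_right _ _).trans (le_max_left _ _))).trans (hL i), ?_, wgt_one hlam hX2, hsum, ?_, ?_, ?_⟩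
    · intro p hp u
      obtain ⟨hpr, hpX⟩ := hpp p hp
      refine (hH p hpr u).trans ?_
      rw [pow_succ, mul_comm]
      exact mul_le_mul (pow_le_pow_left₀ (Nat.cast_nonneg p) (by exact_mod_cast hpX) β) hXK hK0.le (by positivity)
    · refine (wgt_cube hlam hX2).trans ?_
      rw [← hδK]
      have h1 : 0 ≤ ∑ p ∈ PP X, lam X p ^ 2 := sum_nonneg fun _ _ => sq_nonneg _
      nlinarith
    · intro p hp
      exact g4 p (hpp p hp).1
    · have h1 : ∀ p ∈ PP X, |lam X p| * |mn H p| ≤ M * (|lam X p| * (1 / Real.sqrt p)) := fun p hp => by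
        have h2 := g1 p (hpp p hp).1
        calc |lam X p| * |mn H p| ≤ |lam X p| * (M * (1 / Real.sqrt p)) := mul_le_mul_of_nonneg_left h2 (abs_nonneg _)
          _ = _ := by ring
      refine (sum_le_sum h1).trans ?_
      rw [← mul_sum, ← hδK]
      have h2 := wgt_inv hlam hX2
      have h3 : M * ∑ p ∈ PP X, |lam X p| * (1 / Real.sqrt p) ≤ M * δ := mul_le_mul_of_nonneg_left (h2.trans hgf) hM0.le
      nlinarith
  have hfl : ∀ τ : I, ⌊((τ : ℝ≥0) : ℝ) * X⌋₊ ≤ X := by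
    intro τ
    refine Nat.floor_le_of_le ?_
    have h1 : ((τ : ℝ≥0) : ℝ) ≤ 1 := by exact_mod_cast (hI τ τ.2).2
    nlinarith
  have hv : ∀ τ τ' : I, |∑ p ∈ PP (min ⌊((τ : ℝ≥0) : ℝ) * X⌋₊ ⌊((τ' : ℝ≥0) : ℝ) * X⌋₊), lam X p ^ 2 * mn (fun p u => H p u ^ 2) p -
      ((min (τ : ℝ≥0) (τ' : ℝ≥0) : ℝ≥0) : ℝ)| ≤ 1 / (n₀ + 1) := by
    have key : ∀ τ : I, |∑ p ∈ PP ⌊((τ : ℝ≥0) : ℝ) * X⌋₊, lam X p ^ 2 * mn (fun p u => H p u ^ 2) p -
        ((τ : ℝ≥0) : ℝ)| ≤ 1 / (n₀ + 1) := by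
      intro τ
      have h1 : |∑ p ∈ PP ⌊((τ : ℝ≥0) : ℝ) * X⌋₊, lam X p ^ 2 * mn (fun p u => H p u ^ 2) p -
          ∑ p ∈ PP ⌊((τ : ℝ≥0) : ℝ) * X⌋₊, lam X p ^ 2| ≤ M * δ := by
        rw [← sum_sub_distrib]
        refine (abs_sum_le_sum_abs _ _).trans ?_
        have h2 : ∀ p ∈ PP ⌊((τ : ℝ≥0) : ℝ) * X⌋₊, |lam X p ^ 2 * mn (fun p u => H p u ^ 2) p - lam X p ^ 2| ≤
            M * (lam X p ^ 2 * (1 / Real.sqrt p)) := fun p hp => by
          have h3 := g2 p (mem_filter.1 hp).2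
          have h4 : lam X p ^ 2 * mn (fun p u => H p u ^ 2) p - lam X p ^ 2 =
              lam X p ^ 2 * (mn (fun p u => H p u ^ 2) p - 1) := by ring
          rw [h4, abs_mul, abs_of_nonneg (sq_nonneg (lam X p))]
          calc lam X p ^ 2 * |mn (fun p u => H p u ^ 2) p - 1| ≤ lam X p ^ 2 * (M * (1 / Real.sqrt p)) :=
                mul_le_mul_of_nonneg_left h3 (sq_nonneg _)
            _ = _ := by ring
        refine (sum_le_sum h2).trans ?_
        rw [← mul_sum]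
        refine mul_le_mul_of_nonneg_left ?_ hM0.le
        refine le_trans ?_ ((wgt_sq_inv hlam hX2).trans hgf)
        refine sum_le_sum_of_subset_of_nonneg ?_ fun p _ _ => by positivity
        exact filter_subset_filter _ (Icc_subset_Icc_right (hfl τ))
      have h2 := hlog τ
      have h3 : M * δ ≤ 1 / 2 * (1 / (n₀ + 1)) := by
        rw [← hδK]
        nlinarith
      have h4 := abs_sub_le (∑ p ∈ PP ⌊((τ : ℝ≥0) : ℝ) * X⌋₊, lam X p ^ 2 * mn (fun p u => H p u ^ 2) p)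
        (∑ p ∈ PP ⌊((τ : ℝ≥0) : ℝ) * X⌋₊, lam X p ^ 2) ((τ : ℝ≥0) : ℝ)
      linarith
    intro τ τ'
    rcases le_total (τ : ℝ≥0) (τ' : ℝ≥0) with h | h
    · have h1 : ⌊((τ : ℝ≥0) : ℝ) * X⌋₊ ≤ ⌊((τ' : ℝ≥0) : ℝ) * X⌋₊ :=
        Nat.floor_le_floor (mul_le_mul_of_nonneg_right (by exact_mod_cast h) (Nat.cast_nonneg X))
      rw [min_eq_left h1, min_eq_left h]
      exact key τ
    · have h1 : ⌊((τ' : ℝ≥0) : ℝ) * X⌋₊ ≤ ⌊((τ : ℝ≥0) : ℝ) * X⌋₊ :=
        Nat.floor_le_floor (mul_le_mul_of_nonneg_right (by exact_mod_cast h) (Nat.cast_nonneg X))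
      rw [min_eq_right h1, min_eq_right h]
      exact key τ'
  exact hn₀ ⟨n₀, X, N, L, H, lam X, fun τ => ⌊((τ : ℝ≥0) : ℝ) * X⌋₊, hlin, hfl, hv⟩ le_rfl

end Q285HS
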