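import Pool.Agent.Q285.HS.Eng

/-!
# Laws of large numbers in all intervals of primes, for almost all points of a box
-/

set_option autoImplicit false
set_option linter.unusedSectionVars false

namespace Q285HS

open Finset Filter
open scoped Topology
open Q282.CL
open Q282.BP (PP)
open Q282.GK (kbox)
open Q285NG (sq_k av_abs_le)

/-! ### dyadic blocks (after helper163) -/

/-- the sum over a block -/
noncomputable def bl (x : ℕ → ℝ) (a b : ℕ) : ℝ := ∑ j ∈ Ico a b, x j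

/-- the sum of the squares of the dyadic blocks -/
noncomputable def DD (x : ℕ → ℝ) : ℕ → ℕ → ℝ
  | 0, a => x a ^ 2
  | r + 1, a => DD x r a + DD x r (a + 2 ^ r) + bl x a (a + 2 ^ (r + 1)) ^ 2

lemma DD_nonneg (x : ℕ → ℝ) (r a : ℕ) : 0 ≤ DD x r a := by
  induction r generalizing a with
  | zero => exact sq_nonneg _
  | succ r ih =>
    have h1 := ih a
    have h2 := ih (a + 2 ^ r)
    simp only [DD]
    positivity

lemma bl_sq_le (x : ℕ → ℝ) (r a : ℕ) : bl x a (a + 2 ^ r) ^ 2 ≤ DD x r a := by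
  cases r with
  | zero => simp [bl, DD]
  | succ r =>
    simp only [DD]
    have h1 := DD_nonneg x r a
    have h2 := DD_nonneg x r (a + 2 ^ r)
    linarith

lemma bl_le (x : ℕ → ℝ) (r : ℕ) : ∀ a n : ℕ, n ≤ 2 ^ r → bl x a (a + n) ^ 2 ≤ ((r : ℝ) + 1) * DD x r a := by
  induction r with
  | zero =>
    intro a n hn
    have h1 : n = 0 ∨ n = 1 := by
      have : n ≤ 1 := by simpa using hn
      omega
    rcases h1 with rfl | rfl
    · simp [bl, DD, sq_nonneg]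
    · simp [bl, DD]
  | succ r ih =>
    intro a n hn
    have h1 := DD_nonneg x r a
    have h2 := DD_nonneg x r (a + 2 ^ r)
    have hr : (0 : ℝ) ≤ r := Nat.cast_nonneg _
    have h3 : ((r : ℝ) + 2) * (DD x r a + DD x r (a + 2 ^ r)) ≤ ((r + 1 : ℕ) + 1 : ℝ) * DD x (r + 1) a := by
      simp only [DD]
      push_cast
      have h4 := sq_nonneg (bl x a (a + 2 ^ (r + 1)))
      nlinarith
    refine le_trans ?_ h3
    rcases le_or_gt n (2 ^ r) with h | h
    · refine (ih a n h).trans ?_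
      nlinarith
    · obtain ⟨m, rfl⟩ : ∃ m, n = 2 ^ r + m := ⟨n - 2 ^ r, by omega⟩
      have hm : m ≤ 2 ^ r := by
        rw [pow_succ] at hn
        omega
      have h4 : bl x a (a + (2 ^ r + m)) = bl x a (a + 2 ^ r) + bl x (a + 2 ^ r) (a + 2 ^ r + m) := by
        unfold bl
        rw [sum_Ico_consecutive _ (by omega) (by omega), add_assoc]
      have h5 := ih (a + 2 ^ r) m hm
      have h6 := bl_sq_le x r a
      rw [h4]
      obtain ⟨u, hu⟩ : ∃ u, u = bl x a (a + 2 ^ r) := ⟨_, rfl⟩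
      obtain ⟨v, hv⟩ : ∃ v, v = bl x (a + 2 ^ r) (a + 2 ^ r + m) := ⟨_, rfl⟩
      rw [← hu] at h6 ⊢
      rw [← hv] at h5 ⊢
      have h7 : ((r : ℝ) + 1) * (u + v) ^ 2 ≤ ((r : ℝ) + 1) * (((r : ℝ) + 2) * (DD x r a + DD x r (a + 2 ^ r))) := by
        have h8 : ((r : ℝ) + 1) * (u + v) ^ 2 ≤ ((r : ℝ) + 1) * ((r : ℝ) + 2) * u ^ 2 + ((r : ℝ) + 2) * v ^ 2 := by
          nlinarith [sq_nonneg (((r : ℝ) + 1) * u - v)]
        have h9 := mul_le_mul_of_nonneg_left h5 (by positivity : (0 : ℝ) ≤ (r : ℝ) + 2)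
        have h10 := mul_le_mul_of_nonneg_left h6 (by positivity : (0 : ℝ) ≤ ((r : ℝ) + 1) * ((r : ℝ) + 2))
        linarith
      exact le_of_mul_le_mul_left h7 (by positivity)

/-- the mean of the squares of the dyadic blocks -/
lemma DD_av {α : Type} [Fintype α] (x : α → ℕ → ℝ) (K : ℝ) (M : ℕ) (hE : ∀ a b : ℕ, a < b → b ≤ M → av (fun t => bl (x t) a b ^ 2) ≤ K * ((b : ℝ) - a)) (r : ℕ) :
    ∀ a : ℕ, a + 2 ^ r ≤ M → av (fun t => DD (x t) r a) ≤ K * (((r : ℝ) + 1) * 2 ^ r) := by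
  induction r with
  | zero =>
    intro a ha
    have h1 := hE a (a + 1) (by omega) (by simpa using ha)
    have h2 : (fun t => DD (x t) 0 a) = fun t => bl (x t) a (a + 1) ^ 2 := by
      funext t
      simp [bl, DD]
    rw [h2]
    refine h1.trans (le_of_eq ?_)
    push_cast
    ring
  | succ r ih =>
    intro a ha
    have hpow : 2 ^ (r + 1) = 2 ^ r + 2 ^ r := by ring
    have ha' := ha
    rw [hpow] at ha'
    have hp0 : 0 < 2 ^ r := by positivity
    have h1 := ih a (by omega)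
    have h2 := ih (a + 2 ^ r) (by omega)
    have h3 := hE a (a + 2 ^ (r + 1)) (Nat.lt_add_of_pos_right (by positivity)) ha
    simp only [DD]
    rw [av_add, av_add]
    push_cast at h3 ⊢
    have e1 : (2 : ℝ) ^ (r + 1) = 2 * 2 ^ r := by ring
    have e2 : K * (((r : ℝ) + 1 + 1) * 2 ^ (r + 1)) =
        K * (((r : ℝ) + 1) * 2 ^ r) + K * (((r : ℝ) + 1) * 2 ^ r) + K * ((a : ℝ) + 2 ^ (r + 1) - a) := by
      rw [e1]
      ring
    linarith

/-- the primes of an interval -/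
def IV (Y Y' : ℕ) : Finset ℕ := (Ioc Y Y').filter Nat.Prime

section

variable {κ : Type} [Fintype κ] [DecidableEq κ]

/-- the terms -/
noncomputable def xt (G : (p : ℕ) → (κ → ZMod p) → ℝ) (w : ℕ → ℝ) (t : κ → ℤ) (p : ℕ) : ℝ :=
  if p.Prime then w p * (G p (fun i => (t i : ZMod p)) - mn G p) else 0

lemma bl_xt (G : (p : ℕ) → (κ → ZMod p) → ℝ) (w : ℕ → ℝ) (t : κ → ℤ) (Y Y' : ℕ) (h : Y ≤ Y') :
    ∑ p ∈ IV Y Y', w p * (G p (fun i => (t i : ZMod p)) - mn G p) = bl (xt G w t) 0 (0 + (Y' + 1)) - bl (xt G w t) 0 (0 + (Y + 1)) := by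
  have h1 : bl (xt G w t) 0 (0 + (Y' + 1)) = bl (xt G w t) 0 (0 + (Y + 1)) + bl (xt G w t) (Y + 1) (Y' + 1) := by
    unfold bl
    rw [zero_add, zero_add, sum_Ico_consecutive _ (by omega) (by omega)]
  rw [h1, add_sub_cancel_left]
  unfold bl IV xt
  rw [sum_filter]
  refine sum_congr ?_ fun _ _ => rfl
  ext p
  rw [mem_Ioc, mem_Ico]
  omega

/-- the second moments of the blocks -/
lemma bl_av (G : (p : ℕ) → (κ → ZMod p) → ℝ) (β : ℕ) (K : ℝ) (hK : 1 ≤ K) (hG : ∀ p : ℕ, p.Prime → ∀ u, |G p u| ≤ K * (p : ℝ) ^ β)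
    (hv : ∀ p : ℕ, p.Prime → vr G p ≤ K) : ∃ R₀ : ℕ, ∀ M : ℕ, R₀ ≤ M → ∀ (N : κ → ℤ) (L : κ → ℕ) (T : ℝ), 0 < T → (∀ i, T ≤ L i) →
      ((M : ℝ)) ^ (2 * β + 5) ≤ T → ∀ w : ℕ → ℝ, (∀ p, |w p| ≤ 1) → ∀ a b : ℕ, a < b → b ≤ M →
      av (fun t : kbox N L => bl (xt G w (t : κ → ℤ)) a b ^ 2) ≤ (K + 1) * ((b : ℝ) - a) := by
  obtain ⟨R₀, hR₀⟩ := exists_nat_ge (8 * K ^ 2 * (Fintype.card κ + 1) + Fintype.card κ + 2)
  refine ⟨R₀, fun M hM N L T hT hTL hMT w hw a b hab hb => ?_⟩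
  have hM1 : 8 * K ^ 2 * (Fintype.card κ + 1) + Fintype.card κ + 2 ≤ (M : ℝ) := hR₀.trans (by exact_mod_cast hM)
  have hκ0 : (0 : ℝ) ≤ Fintype.card κ := Nat.cast_nonneg _
  have hMpos : (1 : ℝ) ≤ M := by
    have : 0 ≤ 8 * K ^ 2 * (Fintype.card κ + 1 : ℝ) := by positivity
    linarith
  have hM0 : (0 : ℝ) < M := by linarith
  have hK0 : 0 < K := by linarith
  obtain ⟨w', hw'⟩ : ∃ w' : ℕ → ℝ, w' = fun p => if a ≤ p ∧ p < b then w p else 0 := ⟨_, rfl⟩
  have hw'1 : ∀ p, |w' p| ≤ 1 := fun p => by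
    rw [hw']
    dsimp only
    split_ifs
    · exact hw p
    · simp
  have hmn : ∀ p : ℕ, p.Prime → |mn G p| ≤ K * (p : ℝ) ^ β := fun p hp => by
    have : Fact p.Prime := ⟨hp⟩
    rw [mn_eq]
    exact av_abs_le _ _ (hG p hp)
  have h1 := sq_k M G w' (2 * K * (M : ℝ) ^ β) (fun p hp u => by
    have hpp : p.Prime := (mem_filter.1 hp).2
    have hpM : p ≤ M := (mem_Icc.1 (mem_filter.1 hp).1).2
    have h2 : (p : ℝ) ^ β ≤ (M : ℝ) ^ β := pow_le_pow_left₀ (Nat.cast_nonneg _) (by exact_mod_cast hpM) β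
    rw [abs_mul]
    have h3 : |G p u - mn G p| ≤ 2 * K * (M : ℝ) ^ β := by
      refine (abs_sub _ _).trans ?_
      have h4 := hG p hpp u
      have h5 := hmn p hpp
      nlinarith
    calc |w' p| * |G p u - mn G p| ≤ 1 * (2 * K * (M : ℝ) ^ β) := mul_le_mul (hw'1 p) h3 (abs_nonneg _) zero_le_one
      _ = _ := one_mul _) T hT N L hTL
  have h2 : ∀ t : kbox N L, ∑ p ∈ PP M, w' p * (G p (fun i => ((t : κ → ℤ) i : ZMod p)) - mn G p) = bl (xt G w (t : κ → ℤ)) a b := by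
    intro t
    unfold bl xt
    rw [← sum_filter]
    have h3 : (Ico a b).filter Nat.Prime ⊆ PP M := by
      intro p hp
      rw [mem_filter, mem_Ico] at hp
      exact mem_filter.2 ⟨mem_Icc.2 ⟨hp.2.one_lt.le, by omega⟩, hp.2⟩
    rw [← sum_subset h3]
    · refine sum_congr rfl fun p hp => ?_
      rw [mem_filter, mem_Ico] at hp
      rw [hw']
      dsimp only
      rw [if_pos hp.1]
    · intro p hp hnp
      rw [hw']
      dsimp only
      rw [if_neg, zero_mul]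
      intro h
      exact hnp (mem_filter.2 ⟨mem_Ico.2 h, (mem_filter.1 hp).2⟩)
  simp only [h2] at h1
  refine h1.trans ?_
  have h3 : ∑ p ∈ PP M, w' p ^ 2 * vr G p ≤ K * ((b : ℝ) - a) := by
    have h4 : ∀ p ∈ PP M, w' p ^ 2 * vr G p ≤ if a ≤ p ∧ p < b then K else 0 := by
      intro p hp
      have hpp : p.Prime := (mem_filter.1 hp).2
      rw [hw']
      dsimp only
      split_ifs
      · have h5 : w p ^ 2 ≤ 1 := by
          rw [← sq_abs]
          exact pow_le_one₀ (abs_nonneg _) (hw p)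
        have h6 : 0 ≤ vr G p := by
          have : Fact p.Prime := ⟨hpp⟩
          unfold vr
          rw [mn_eq (fun p u => G p u ^ 2), mn_eq G]
          have h7 : av (fun u => (G p u - av (G p)) ^ 2) = av (fun u => G p u ^ 2) - av (G p) ^ 2 := by
            have h8 : (fun u => (G p u - av (G p)) ^ 2) = fun u => G p u ^ 2 - ((2 * av (G p)) * G p u - av (G p) ^ 2) := by
              funext u
              ring
            rw [h8, av_sub, av_sub, av_mul, av_const]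
            ring
          rw [← h7]
          unfold av
          positivity
        have := hv p hpp
        nlinarith [sq_nonneg (w p)]
      · simp
    refine (sum_le_sum h4).trans ?_
    rw [← sum_filter, sum_const, nsmul_eq_mul, mul_comm]
    refine mul_le_mul_of_nonneg_left ?_ hK0.le
    have h5 : ((PP M).filter fun p => a ≤ p ∧ p < b).card ≤ b - a := by
      rw [← Nat.card_Ico]
      exact card_le_card fun p hp => mem_Ico.2 (mem_filter.1 hp).2
    calc (((PP M).filter fun p => a ≤ p ∧ p < b).card : ℝ) ≤ ((b - a : ℕ) : ℝ) := by exact_mod_cast h5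
      _ = (b : ℝ) - a := by rw [Nat.cast_sub hab.le]
  have h4 : (M : ℝ) ^ 2 * ((2 * K * (M : ℝ) ^ β) ^ 2 * (Real.exp (Fintype.card κ * (M : ℝ) ^ 2 / T) - 1)) ≤ 1 := by
    obtain ⟨z, hz⟩ : ∃ z : ℝ, z = Fintype.card κ * (M : ℝ) ^ 2 / T := ⟨_, rfl⟩
    have hz0 : 0 ≤ z := by
      rw [hz]
      positivity
    have hzM : z * (M : ℝ) ^ (2 * β + 3) ≤ Fintype.card κ := by
      rw [hz, div_mul_eq_mul_div, div_le_iff₀ hT]
      have h5 : (M : ℝ) ^ (2 * β + 5) = (M : ℝ) ^ 2 * (M : ℝ) ^ (2 * β + 3) := by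
        rw [← pow_add]
        congr 1
        omega
      rw [h5] at hMT
      calc (Fintype.card κ : ℝ) * (M : ℝ) ^ 2 * (M : ℝ) ^ (2 * β + 3) = Fintype.card κ * ((M : ℝ) ^ 2 * (M : ℝ) ^ (2 * β + 3)) := by ring
        _ ≤ _ := mul_le_mul_of_nonneg_left hMT hκ0
    have hz1 : z ≤ 1 := by
      have h5 : (M : ℝ) ≤ (M : ℝ) ^ (2 * β + 3) := le_self_pow₀ hMpos (by omega)
      have h6 : z * M ≤ Fintype.card κ := (mul_le_mul_of_nonneg_left h5 hz0).trans hzM
      by_contra h7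
      push Not at h7
      have h8 : 0 ≤ 8 * K ^ 2 * (Fintype.card κ + 1 : ℝ) := by positivity
      nlinarith
    have h5 : Real.exp z - 1 ≤ 2 * z := by
      have h6 := Real.abs_exp_sub_one_le (x := z) (by rw [abs_of_nonneg hz0]; exact hz1)
      rw [abs_of_nonneg hz0] at h6
      exact (le_abs_self _).trans h6
    rw [← hz]
    have h6 : (M : ℝ) ^ 2 * ((2 * K * (M : ℝ) ^ β) ^ 2 * (Real.exp z - 1)) ≤ (M : ℝ) ^ 2 * ((2 * K * (M : ℝ) ^ β) ^ 2 * (2 * z)) := by gcongr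
    refine h6.trans ?_
    have h7 : (M : ℝ) ^ 2 * ((2 * K * (M : ℝ) ^ β) ^ 2 * (2 * z)) * M = 8 * K ^ 2 * (z * (M : ℝ) ^ (2 * β + 3)) := by
      have h8 : (M : ℝ) ^ (2 * β + 3) = (M : ℝ) ^ β * (M : ℝ) ^ β * (M : ℝ) ^ 3 := by
        rw [← pow_add, ← pow_add]
        congr 1
        omega
      rw [h8]
      ring
    have h9 : 8 * K ^ 2 * (z * (M : ℝ) ^ (2 * β + 3)) ≤ 8 * K ^ 2 * Fintype.card κ := mul_le_mul_of_nonneg_left hzM (by positivity)
    have h10 : 8 * K ^ 2 * Fintype.card κ ≤ (M : ℝ) := by nlinarith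
    have h11 : (M : ℝ) ^ 2 * ((2 * K * (M : ℝ) ^ β) ^ 2 * (2 * z)) * M ≤ 1 * M := by
      rw [h7, one_mul]
      linarith
    exact le_of_mul_le_mul_right h11 hM0
  have h5 : (1 : ℝ) ≤ (b : ℝ) - a := by
    have : a + 1 ≤ b := hab
    have : (a : ℝ) + 1 ≤ b := by exact_mod_cast this
    linarith
  linarith

lemma sum_sqrt_le (Y Y' : ℕ) : ∑ p ∈ IV Y Y', 1 / Real.sqrt (p : ℝ) ≤ 2 * Real.sqrt Y' := by
  have h2 : ∀ n : ℕ, ∑ p ∈ Icc 1 n, 1 / Real.sqrt (p : ℝ) ≤ 2 * Real.sqrt n := by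
    intro n
    induction n with
    | zero => simp
    | succ n ih =>
      rw [sum_Icc_succ_top (by omega)]
      have h3 : (0 : ℝ) < ((n + 1 : ℕ) : ℝ) := by positivity
      have h4 := Real.sqrt_pos.2 h3
      have h5 : 1 / Real.sqrt ((n + 1 : ℕ) : ℝ) ≤ 2 * (Real.sqrt ((n + 1 : ℕ) : ℝ) - Real.sqrt n) := by
        rw [div_le_iff₀ h4]
        have h6 : Real.sqrt ((n + 1 : ℕ) : ℝ) * Real.sqrt ((n + 1 : ℕ) : ℝ) = n + 1 := by
          rw [Real.mul_self_sqrt h3.le]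
          push_cast
          rfl
        have h7 : Real.sqrt (n : ℝ) * Real.sqrt (n : ℝ) = n := Real.mul_self_sqrt (Nat.cast_nonneg n)
        nlinarith [sq_nonneg (Real.sqrt ((n + 1 : ℕ) : ℝ) - Real.sqrt n)]
      linarith
  refine le_trans (sum_le_sum_of_subset_of_nonneg ?_ fun i _ _ => by positivity) (h2 Y')
  intro p hp
  unfold IV at hp
  rw [mem_filter, mem_Ioc] at hp
  exact mem_Icc.2 ⟨hp.2.one_lt.le, hp.1.2⟩

/-- **the law of large numbers in all intervals** -/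
theorem lln (G : (p : ℕ) → (κ → ZMod p) → ℝ) (β p₀ : ℕ) (K μ : ℝ) (hK : 1 ≤ K) (hG : ∀ p : ℕ, p.Prime → ∀ u, |G p u| ≤ K * (p : ℝ) ^ β)
    (h1 : ∀ p : ℕ, p.Prime → p₀ ≤ p → |mn G p - μ| ≤ K / Real.sqrt p)
    (h2 : ∀ p : ℕ, p.Prime → p₀ ≤ p → mn (fun p u => G p u ^ 2) p ≤ K) (ε : ℝ) (hε : 0 < ε) (hε1 : ε ≤ 1) :
    ∃ κ₀ : ℝ, 0 < κ₀ ∧ ∃ C : ℝ, 1 ≤ C ∧ ∀ (w : ℕ → ℝ), (∀ p, |w p| ≤ 1) → ∀ (N : κ → ℤ) (L : κ → ℕ) (T : ℝ), 0 < T → (∀ i, T ≤ L i) →
      ∀ X₀ : ℕ, 1 ≤ X₀ → ∃ E : Finset (κ → ℤ), E ⊆ kbox N L ∧ (E.card : ℝ) ≤ C * (X₀ : ℝ) ^ (-(ε / 2)) * ∏ i, (L i : ℝ) ∧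
      ∀ t ∈ kbox N L, t ∉ E → ∀ Y Y' : ℕ, Y ≤ Y' → X₀ ≤ Y' → (Y' : ℝ) ≤ T ^ κ₀ →
        |∑ p ∈ IV Y Y', w p * (G p (fun i => (t i : ZMod p)) - μ)| ≤ C * (Y' : ℝ) ^ (1 / 2 + ε / 2) := by
  classical
  -- a uniform bound for the variances
  obtain ⟨B, hB⟩ : ∃ B : ℝ, B = K * (p₀ : ℝ) ^ β + 1 := ⟨_, rfl⟩
  have hB1 : 1 ≤ B := by
    rw [hB]
    have : 0 ≤ K * (p₀ : ℝ) ^ β := by positivity
    linarith
  have hsmall : ∀ p : ℕ, p.Prime → p < p₀ → ∀ u, |G p u| ≤ B := fun p hp h u => by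
    refine (hG p hp u).trans ?_
    rw [hB]
    have := mul_le_mul_of_nonneg_left (pow_le_pow_left₀ (Nat.cast_nonneg p) (by exact_mod_cast h.le : (p : ℝ) ≤ p₀) β) (by linarith : 0 ≤ K)
    linarith
  obtain ⟨K', hK'⟩ : ∃ K' : ℝ, K' = K + B ^ 2 := ⟨_, rfl⟩
  have hK'1 : 1 ≤ K' := by
    rw [hK']
    nlinarith
  have hv : ∀ p : ℕ, p.Prime → vr G p ≤ K' := by
    intro p hp
    have : Fact p.Prime := ⟨hp⟩
    have h3 : vr G p ≤ mn (fun p u => G p u ^ 2) p := by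
      unfold vr
      linarith [sq_nonneg (mn G p)]
    refine h3.trans ?_
    by_cases h : p₀ ≤ p
    · have := h2 p hp h
      rw [hK']
      nlinarith
    · rw [not_le] at h
      rw [mn_eq (fun p u => G p u ^ 2)]
      have h4 := (abs_le.1 (av_abs_le (fun u => G p u ^ 2) (B ^ 2) fun u => by
        rw [abs_pow]
        exact pow_le_pow_left₀ (abs_nonneg _) (hsmall p hp h u) 2)).2
      rw [hK']
      linarith
  obtain ⟨R₀, hR₀⟩ := bl_av G β K' hK'1 (fun p hp u => (hG p hp u).trans (mul_le_mul_of_nonneg_right (by rw [hK']; nlinarith) (by positivity))) hv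
  obtain ⟨A, hA⟩ : ∃ A : ℕ, A = 2 * β + 5 := ⟨_, rfl⟩
  -- the sum over the scales
  obtain ⟨q, hq⟩ : ∃ q : ℝ, q = (2 : ℝ) ^ (-(ε / 2)) := ⟨_, rfl⟩
  have hq0 : 0 < q := by
    rw [hq]
    positivity
  have hq1 : q < 1 := by
    rw [hq]
    exact Real.rpow_lt_one_of_one_lt_of_neg (by norm_num) (by linarith)
  obtain ⟨C₂, hC₂⟩ : ∃ C₂ : ℝ, 0 ≤ C₂ ∧ ∀ r : ℕ, ((r : ℝ) + 1) ^ 2 * (q ^ r) ≤ C₂ := by
    have h3 : Tendsto (fun r : ℕ => (r : ℝ) ^ 2 * q ^ r) atTop (𝓝 0) := tendsto_pow_const_mul_const_pow_of_abs_lt_one 2 (by rw [abs_of_pos hq0]; exact hq1)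
    obtain ⟨C, hC⟩ := h3.bddAbove_range
    refine ⟨max C 0 / q, by positivity, fun r => ?_⟩
    have h4 := hC ⟨r + 1, rfl⟩
    dsimp only at h4
    push_cast at h4
    rw [le_div_iff₀ hq0]
    calc ((r : ℝ) + 1) ^ 2 * q ^ r * q = ((r : ℝ) + 1) ^ 2 * q ^ (r + 1) := by ring
      _ ≤ C := h4
      _ ≤ _ := le_max_left _ _
  obtain ⟨C₃, hC₃⟩ : ∃ C₃ : ℝ, C₃ = (K' + 1) * C₂ / (1 - q) := ⟨_, rfl⟩
  have h1q : 0 < 1 - q := by linarith
  have hC₃0 : 0 ≤ C₃ := by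
    rw [hC₃]
    have := hC₂.1
    positivity
  obtain ⟨C₄, hC₄⟩ : ∃ C₄ : ℝ, C₄ = 4 * 1 + 2 * K + p₀ * (B + |μ|) := ⟨_, rfl⟩
  obtain ⟨C, hC⟩ : ∃ C : ℝ, C = (2 : ℝ) ^ (R₀ + 1) + C₃ + C₄ := ⟨_, rfl⟩
  have hC₄0 : 0 ≤ C₄ := by
    rw [hC₄]
    positivity
  have hCR : (2 : ℝ) ^ (R₀ + 1) ≤ C := by
    rw [hC]
    linarith
  refine ⟨1 / (2 * A), by rw [hA]; positivity, C, ?_, ?_⟩
  · refine le_trans ?_ hCR
    exact one_le_pow₀ (by norm_num)
  intro w hw N L T hT hTL X₀ hX₀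
  have hL0 : ∀ i, 0 < L i := fun i => by
    have : (0 : ℝ) < L i := hT.trans_le (hTL i)
    exact_mod_cast this
  have : Nonempty (kbox N L) := kbox_nonempty hL0
  have hprod : (0 : ℝ) < ∏ i, (L i : ℝ) := prod_pos fun i _ => by exact_mod_cast hL0 i
  have hcardbox : ((kbox N L).card : ℝ) = ∏ i, (L i : ℝ) := by
    unfold kbox
    rw [Fintype.card_piFinset]
    push_cast
    refine prod_congr rfl fun i _ => ?_
    rw [Int.card_Ico]
    simp
  have hX₀1 : (1 : ℝ) ≤ X₀ := by exact_mod_cast hX₀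
  have hX₀0 : (0 : ℝ) < X₀ := by linarith
  rcases Nat.lt_or_ge X₀ (2 ^ (R₀ + 1)) with hsm | hlg
  · refine ⟨kbox N L, Subset.refl _, ?_, fun t ht hnt => absurd ht hnt⟩
    rw [hcardbox]
    have h3 : 1 ≤ C * (X₀ : ℝ) ^ (-(ε / 2)) := by
      rw [Real.rpow_neg hX₀0.le, ← div_eq_mul_inv, one_le_div (by positivity)]
      have h4 : (X₀ : ℝ) ^ (ε / 2) ≤ (X₀ : ℝ) ^ (1 : ℝ) := Real.rpow_le_rpow_of_exponent_le hX₀1 (by linarith)
      rw [Real.rpow_one] at h4
      have h5 : (X₀ : ℝ) ≤ 2 ^ (R₀ + 1) := by exact_mod_cast hsm.le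
      linarith
    nlinarith
  · -- the scales
    obtain ⟨r₁, hr₁⟩ : ∃ r₁, r₁ = Nat.log 2 X₀ + 1 := ⟨_, rfl⟩
    have hX₀r : X₀ < 2 ^ r₁ := by
      rw [hr₁]
      exact Nat.lt_pow_succ_log_self (by norm_num) X₀
    have hr₁R : R₀ < r₁ := by
      by_contra h
      push Not at h
      have h3 : 2 ^ r₁ ≤ 2 ^ R₀ := Nat.pow_le_pow_right (by norm_num) h
      have h4 : 2 ^ R₀ ≤ 2 ^ (R₀ + 1) := Nat.pow_le_pow_right (by norm_num) (by omega)
      omega
    obtain ⟨M, hM⟩ := exists_nat_ge T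
    obtain ⟨𝓡, h𝓡⟩ : ∃ 𝓡 : Finset ℕ, 𝓡 = (Ico r₁ (r₁ + M + 1)).filter fun r => ((2 ^ r : ℕ) : ℝ) ^ A ≤ T := ⟨_, rfl⟩
    obtain ⟨lam, hlam⟩ : ∃ lam : ℕ → ℝ, lam = fun r : ℕ => (2 : ℝ) ^ ((r : ℝ) * (1 / 2 + ε / 2)) := ⟨_, rfl⟩
    have hlam0 : ∀ r, 0 < lam r := fun r => by
      rw [hlam]
      positivity
    have hlam2 : ∀ r, lam r ^ 2 = (2 : ℝ) ^ r * ((2 : ℝ) ^ ((r : ℝ) * ε)) := fun r => by
      rw [hlam]
      dsimp only
      rw [← Real.rpow_natCast, ← Real.rpow_mul (by norm_num), ← Real.rpow_natCast, ← Real.rpow_add (by norm_num)]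
      congr 1
      push_cast
      ring
    obtain ⟨E, hE⟩ : ∃ E : Finset (κ → ℤ), E = 𝓡.biUnion fun r => (kbox N L).filter fun t => lam r ^ 2 < ((r : ℝ) + 1) * DD (xt G w t) r 0 := ⟨_, rfl⟩
    refine ⟨E, ?_, ?_, ?_⟩
    · intro t ht
      rw [hE, mem_biUnion] at ht
      obtain ⟨r, _, hr⟩ := ht
      exact (mem_filter.1 hr).1
    · -- the size of the exceptional set
      have h3 : ∀ r ∈ 𝓡, (((kbox N L).filter fun t => lam r ^ 2 < ((r : ℝ) + 1) * DD (xt G w t) r 0).card : ℝ) ≤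
          ((K' + 1) * C₂ * q ^ r) * ∏ i, (L i : ℝ) := by
        intro r hr
        rw [h𝓡, mem_filter, mem_Ico] at hr
        have h4 := DD_av (fun (t : kbox N L) => xt G w (t : κ → ℤ)) (K' + 1) (2 ^ r) (fun a b hab hb =>
          hR₀ (2 ^ r) (by
            have h5 : r < 2 ^ r := Nat.lt_two_pow_self
            omega) N L T hT hTL (by rw [← hA]; exact hr.2) w hw a b hab hb) r 0 (by omega)
        -- Markov
        have h5 : (((kbox N L).filter fun t => lam r ^ 2 < ((r : ℝ) + 1) * DD (xt G w t) r 0).card : ℝ) * lam r ^ 2 ≤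
            ∑ t ∈ kbox N L, ((r : ℝ) + 1) * DD (xt G w t) r 0 := by
          rw [← nsmul_eq_mul, ← sum_const]
          refine le_trans (sum_le_sum fun t ht => (mem_filter.1 ht).2.le) ?_
          exact sum_le_sum_of_subset_of_nonneg (filter_subset _ _) fun t _ _ => mul_nonneg (by positivity) (DD_nonneg _ _ _)
        have h6 : ∑ t ∈ kbox N L, ((r : ℝ) + 1) * DD (xt G w t) r 0 = ((r : ℝ) + 1) * (av (fun t : kbox N L => DD (xt G w (t : κ → ℤ)) r 0) * ∏ i, (L i : ℝ)) := by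
          unfold av
          rw [Fintype.card_coe, hcardbox, div_mul_cancel₀ _ hprod.ne', ← mul_sum, ← Finset.sum_coe_sort (kbox N L) fun t => DD (xt G w t) r 0]
        rw [h6] at h5
        have h7 : ((r : ℝ) + 1) * (av (fun t : kbox N L => DD (xt G w (t : κ → ℤ)) r 0) * ∏ i, (L i : ℝ)) ≤
            ((r : ℝ) + 1) * ((K' + 1) * (((r : ℝ) + 1) * 2 ^ r) * ∏ i, (L i : ℝ)) :=
          mul_le_mul_of_nonneg_left (mul_le_mul_of_nonneg_right h4 hprod.le) (by positivity)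
        have h8 : ((r : ℝ) + 1) * ((K' + 1) * (((r : ℝ) + 1) * 2 ^ r) * ∏ i, (L i : ℝ)) ≤
            ((K' + 1) * C₂ * q ^ r) * (∏ i, (L i : ℝ)) * lam r ^ 2 := by
          have h9 : q ^ r * q ^ r * (2 : ℝ) ^ ((r : ℝ) * ε) = 1 := by
            rw [hq, ← pow_add, ← Real.rpow_natCast, ← Real.rpow_mul (by norm_num), ← Real.rpow_add (by norm_num)]
            have : -(ε / 2) * ((r + r : ℕ) : ℝ) + (r : ℝ) * ε = 0 := by
              push_cast
              ring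
            rw [this, Real.rpow_zero]
          have h10 := hC₂.2 r
          have h11 : ((r : ℝ) + 1) ^ 2 ≤ C₂ * q ^ r * (2 : ℝ) ^ ((r : ℝ) * ε) := by
            have h12 : ((r : ℝ) + 1) ^ 2 * (q ^ r) * (q ^ r * (2 : ℝ) ^ ((r : ℝ) * ε)) = ((r : ℝ) + 1) ^ 2 := by
              calc ((r : ℝ) + 1) ^ 2 * (q ^ r) * (q ^ r * (2 : ℝ) ^ ((r : ℝ) * ε)) = ((r : ℝ) + 1) ^ 2 * (q ^ r * q ^ r * (2 : ℝ) ^ ((r : ℝ) * ε)) := by ring
                _ = _ := by rw [h9, mul_one]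
            calc ((r : ℝ) + 1) ^ 2 = ((r : ℝ) + 1) ^ 2 * (q ^ r) * (q ^ r * (2 : ℝ) ^ ((r : ℝ) * ε)) := h12.symm
              _ ≤ C₂ * (q ^ r * (2 : ℝ) ^ ((r : ℝ) * ε)) := mul_le_mul_of_nonneg_right h10 (by positivity)
              _ = _ := by ring
          rw [hlam2]
          calc ((r : ℝ) + 1) * ((K' + 1) * (((r : ℝ) + 1) * 2 ^ r) * ∏ i, (L i : ℝ)) =
                ((r : ℝ) + 1) ^ 2 * ((K' + 1) * 2 ^ r * ∏ i, (L i : ℝ)) := by ring
            _ ≤ (C₂ * q ^ r * (2 : ℝ) ^ ((r : ℝ) * ε)) * ((K' + 1) * 2 ^ r * ∏ i, (L i : ℝ)) :=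
                mul_le_mul_of_nonneg_right h11 (by positivity)
            _ = _ := by ring
        have h9 : 0 < lam r ^ 2 := pow_pos (hlam0 r) 2
        exact le_of_mul_le_mul_right ((h5.trans h7).trans h8) h9
      have h4 : (E.card : ℝ) ≤ ∑ r ∈ 𝓡, ((K' + 1) * C₂ * q ^ r) * ∏ i, (L i : ℝ) := by
        rw [hE]
        refine le_trans (Nat.cast_le.2 card_biUnion_le) ?_
        push_cast
        exact sum_le_sum h3
      refine h4.trans ?_
      rw [← sum_mul]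
      refine mul_le_mul_of_nonneg_right ?_ hprod.le
      have h5 : ∑ r ∈ 𝓡, (K' + 1) * C₂ * q ^ r ≤ C₃ * q ^ r₁ := by
        rw [← mul_sum]
        have h6 : ∑ r ∈ 𝓡, q ^ r ≤ q ^ r₁ / (1 - q) := by
          have h7 : ∑ r ∈ 𝓡, q ^ r ≤ ∑ r ∈ Ico r₁ (r₁ + M + 1), q ^ r := by
            rw [h𝓡]
            exact sum_le_sum_of_subset_of_nonneg (filter_subset _ _) fun r _ _ => by positivity
          refine h7.trans ?_
          rw [sum_Ico_eq_sum_range]
          have h8 : ∀ i ∈ range (r₁ + M + 1 - r₁), q ^ (r₁ + i) = q ^ r₁ * q ^ i := fun i _ => pow_add _ _ _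
          rw [sum_congr rfl h8, ← mul_sum, div_eq_mul_one_div]
          refine mul_le_mul_of_nonneg_left ?_ (by positivity)
          rw [geom_sum_eq hq1.ne, ← neg_sub 1 q, ← neg_sub 1 (q ^ _), neg_div_neg_eq]
          refine div_le_div_of_nonneg_right ?_ h1q.le
          have : 0 ≤ q ^ (r₁ + M + 1 - r₁) := by positivity
          linarith
        have h7 : 0 ≤ (K' + 1) * C₂ := mul_nonneg (by linarith) hC₂.1
        calc (K' + 1) * C₂ * ∑ r ∈ 𝓡, q ^ r ≤ (K' + 1) * C₂ * (q ^ r₁ / (1 - q)) := mul_le_mul_of_nonneg_left h6 h7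
          _ = _ := by
            rw [hC₃]
            ring
      refine h5.trans ?_
      have h6 : q ^ r₁ ≤ (X₀ : ℝ) ^ (-(ε / 2)) := by
        have h7 : q ^ r₁ = ((2 : ℝ) ^ r₁) ^ (-(ε / 2)) := by
          rw [hq, ← Real.rpow_natCast, ← Real.rpow_mul (by norm_num), ← Real.rpow_natCast, ← Real.rpow_mul (by norm_num), mul_comm]
        rw [h7]
        refine Real.rpow_le_rpow_of_nonpos hX₀0 ?_ (by linarith)
        exact_mod_cast hX₀r.le
      have h7 : C₃ ≤ C := by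
        rw [hC]
        have : (0 : ℝ) ≤ 2 ^ (R₀ + 1) := by positivity
        linarith
      exact mul_le_mul h7 h6 (by positivity) (by linarith)
    · -- outside the exceptional set
      intro t ht hnt Y Y' hYY hY hYT
      obtain ⟨r, hr⟩ : ∃ r, r = Nat.log 2 Y' + 1 := ⟨_, rfl⟩
      have hY'0 : Y' ≠ 0 := by omega
      have hYr : Y' < 2 ^ r := by
        rw [hr]
        exact Nat.lt_pow_succ_log_self (by norm_num) Y'
      have hYr2 : 2 ^ r ≤ 2 * Y' := by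
        rw [hr, pow_succ, mul_comm]
        exact Nat.mul_le_mul_left 2 (Nat.pow_log_le_self 2 hY'0)
      have hrr₁ : r₁ ≤ r := by
        rw [hr, hr₁]
        have := Nat.log_mono_right (b := 2) hY
        omega
      have hY2 : 2 ≤ Y' := by
        have h3 : 2 ^ 1 ≤ 2 ^ (R₀ + 1) := Nat.pow_le_pow_right (by norm_num) (by omega)
        omega
      have hY2R : (2 : ℝ) ≤ Y' := by exact_mod_cast hY2
      have hrT : ((2 ^ r : ℕ) : ℝ) ^ A ≤ T := by
        have h3 : ((2 ^ r : ℕ) : ℝ) ≤ (Y' : ℝ) ^ 2 := by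
          have h4 : ((2 ^ r : ℕ) : ℝ) ≤ 2 * Y' := by exact_mod_cast hYr2
          nlinarith
        have h4 : (T ^ (1 / (2 * (A : ℝ)))) ^ (2 * A) = T := by
          have hA0 : (2 * (A : ℝ)) ≠ 0 := by
            rw [hA]
            positivity
          rw [← Real.rpow_natCast, ← Real.rpow_mul hT.le]
          push_cast
          rw [one_div, inv_mul_cancel₀ hA0, Real.rpow_one]
        calc ((2 ^ r : ℕ) : ℝ) ^ A ≤ ((Y' : ℝ) ^ 2) ^ A := pow_le_pow_left₀ (Nat.cast_nonneg _) h3 A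
          _ = (Y' : ℝ) ^ (2 * A) := by rw [← pow_mul]
          _ ≤ (T ^ (1 / (2 * (A : ℝ)))) ^ (2 * A) := pow_le_pow_left₀ (by linarith) hYT _
          _ = T := h4
      have hr𝓡 : r ∈ 𝓡 := by
        rw [h𝓡, mem_filter, mem_Ico]
        refine ⟨⟨hrr₁, ?_⟩, hrT⟩
        have h3 : ((2 ^ r : ℕ) : ℝ) ≤ T := by
          refine le_trans ?_ hrT
          refine le_self_pow₀ ?_ (by rw [hA]; omega)
          exact_mod_cast Nat.one_le_two_pow
        have h4 : ((2 ^ r : ℕ) : ℝ) ≤ M := h3.trans hM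
        have h5 : 2 ^ r ≤ M := by exact_mod_cast h4
        have h6 : r < 2 ^ r := Nat.lt_two_pow_self
        omega
      have hDD : ((r : ℝ) + 1) * DD (xt G w t) r 0 ≤ lam r ^ 2 := by
        by_contra h
        rw [not_le] at h
        apply hnt
        rw [hE, mem_biUnion]
        exact ⟨r, hr𝓡, mem_filter.2 ⟨ht, h⟩⟩
      have hbl : ∀ m ≤ Y', |bl (xt G w t) 0 (0 + (m + 1))| ≤ lam r := by
        intro m hm
        refine abs_le_of_sq_le_sq ?_ (hlam0 r).le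
        exact (bl_le (xt G w t) r 0 (m + 1) (by omega)).trans hDD
      have hmain : |∑ p ∈ IV Y Y', w p * (G p (fun i => (t i : ZMod p)) - mn G p)| ≤ 2 * lam r := by
        rw [bl_xt G w t Y Y' hYY]
        refine (abs_sub _ _).trans ?_
        have h3 := hbl Y' le_rfl
        have h4 := hbl Y hYY
        linarith
      have hlamY : lam r ≤ 2 * (Y' : ℝ) ^ (1 / 2 + ε / 2) := by
        rw [hlam]
        dsimp only
        rw [Real.rpow_mul (by norm_num), Real.rpow_natCast]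
        have h3 : (2 : ℝ) ^ r ≤ 2 * Y' := by exact_mod_cast hYr2
        have h4 : ((2 : ℝ) ^ r) ^ (1 / 2 + ε / 2) ≤ (2 * (Y' : ℝ)) ^ (1 / 2 + ε / 2) := Real.rpow_le_rpow (by positivity) h3 (by linarith)
        refine h4.trans ?_
        rw [Real.mul_rpow (by norm_num) (by linarith)]
        refine mul_le_mul_of_nonneg_right ?_ (by positivity)
        have h5 : (2 : ℝ) ^ (1 / 2 + ε / 2) ≤ 2 ^ (1 : ℝ) := Real.rpow_le_rpow_of_exponent_le (by norm_num) (by linarith)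
        rwa [Real.rpow_one] at h5
      have hYs : Real.sqrt Y' ≤ (Y' : ℝ) ^ (1 / 2 + ε / 2) := by
        rw [Real.sqrt_eq_rpow]
        exact Real.rpow_le_rpow_of_exponent_le (by linarith) (by linarith)
      have hY1 : 1 ≤ (Y' : ℝ) ^ (1 / 2 + ε / 2) := Real.one_le_rpow (by linarith) (by linarith)
      have hmean : |∑ p ∈ IV Y Y', w p * (mn G p - μ)| ≤ 2 * K * Real.sqrt Y' + p₀ * (B + |μ|) := by
        refine (abs_sum_le_sum_abs _ _).trans ?_
        have h3 : ∀ p ∈ IV Y Y', |w p * (mn G p - μ)| ≤ K * (1 / Real.sqrt p) + if p < p₀ then B + |μ| else 0 := by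
          intro p hp
          unfold IV at hp
          have hpp : p.Prime := (mem_filter.1 hp).2
          have : Fact p.Prime := ⟨hpp⟩
          rw [abs_mul]
          have h4 : |w p| * |mn G p - μ| ≤ |mn G p - μ| := mul_le_of_le_one_left (abs_nonneg _) (hw p)
          refine h4.trans ?_
          have h5 : 0 ≤ K * (1 / Real.sqrt (p : ℝ)) := by positivity
          split_ifs with hpp₀
          · have h6 : |mn G p| ≤ B := by
              rw [mn_eq]
              exact av_abs_le _ _ (hsmall p hpp hpp₀)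
            refine (abs_sub _ _).trans ?_
            linarith
          · rw [not_lt] at hpp₀
            have := h1 p hpp hpp₀
            rw [add_zero, mul_one_div]
            exact this
        refine (sum_le_sum h3).trans ?_
        rw [sum_add_distrib, ← mul_sum]
        refine add_le_add ?_ ?_
        · have := mul_le_mul_of_nonneg_left (sum_sqrt_le Y Y') (by linarith : 0 ≤ K)
          linarith
        · rw [← sum_filter, sum_const, nsmul_eq_mul]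
          refine mul_le_mul_of_nonneg_right ?_ (by positivity)
          have h4 : ((IV Y Y').filter fun p => p < p₀).card ≤ p₀ := by
            calc ((IV Y Y').filter fun p => p < p₀).card ≤ (range p₀).card := card_le_card fun p hp => mem_range.2 (mem_filter.1 hp).2
              _ = p₀ := card_range p₀
          exact_mod_cast h4
      have hsplit : ∑ p ∈ IV Y Y', w p * (G p (fun i => (t i : ZMod p)) - μ) =
          ∑ p ∈ IV Y Y', w p * (G p (fun i => (t i : ZMod p)) - mn G p) + ∑ p ∈ IV Y Y', w p * (mn G p - μ) := by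
        rw [← sum_add_distrib]
        exact sum_congr rfl fun p _ => by ring
      rw [hsplit]
      refine (abs_add_le _ _).trans ?_
      have h3 : (0 : ℝ) ≤ p₀ * (B + |μ|) := by positivity
      have h4 : 2 * lam r + (2 * K * Real.sqrt Y' + p₀ * (B + |μ|)) ≤ C₄ * (Y' : ℝ) ^ (1 / 2 + ε / 2) := by
        rw [hC₄]
        have h5 : 2 * K * Real.sqrt Y' ≤ 2 * K * (Y' : ℝ) ^ (1 / 2 + ε / 2) := mul_le_mul_of_nonneg_left hYs (by linarith)
        have h6 : p₀ * (B + |μ|) ≤ p₀ * (B + |μ|) * (Y' : ℝ) ^ (1 / 2 + ε / 2) := by nlinarith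
        linarith
      have h5 : C₄ ≤ C := by
        rw [hC]
        have : (0 : ℝ) ≤ 2 ^ (R₀ + 1) := by positivity
        linarith
      have h6 : C₄ * (Y' : ℝ) ^ (1 / 2 + ε / 2) ≤ C * (Y' : ℝ) ^ (1 / 2 + ε / 2) := mul_le_mul_of_nonneg_right h5 (by positivity)
      linarith

end

end Q285HS
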