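import Pool.Agent.Q285.HS.Mom
import Pool.Agent.Q285.HS.Lln
import Pool.Agent.Q282.MM.Main

/-!
# The law over the primes of a local function with nearly normal moments, for almost all points of a box
-/

set_option autoImplicit false
set_option linter.unusedSectionVars false

namespace Q285HS

open Finset Filter
open Q282.CL
open Q282.GK (kbox)
open Q282MM (gm Phi)

variable {κ : Type} [Fintype κ] [DecidableEq κ]

/-- the moments up to the order `k` are nearly those of the normal law -/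
structure NearN (H : (p : ℕ) → (κ → ZMod p) → ℝ) (k β p₁ : ℕ) (K : ℝ) : Prop where
  one : 1 ≤ K
  bd : ∀ p : ℕ, p.Prime → ∀ u, |H p u| ≤ K * (p : ℝ) ^ β
  mom : ∀ p : ℕ, p.Prime → p₁ ≤ p → ∀ j ≤ k, |mn (fun p c => H p c ^ j) p - (gm j : ℝ)| ≤ K / Real.sqrt p

variable (H : (p : ℕ) → (κ → ZMod p) → ℝ)

open Classical in
/-- the centred powers at the good primes -/
noncomputable def Gk (k : ℕ) (Bad : (p : ℕ) → Set (κ → ZMod p)) (p : ℕ) (c : κ → ZMod p) : ℝ :=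
  if c ∈ Bad p then 0 else H p c ^ k - (gm k : ℝ)

variable {H} in
lemma Gk_abs {m β p₁ : ℕ} {K : ℝ} (hH : NearN H m β p₁ K) (k : ℕ) (Bad : (p : ℕ) → Set (κ → ZMod p)) (p : ℕ) (hpr : p.Prime) (c : κ → ZMod p) :
    |Gk H k Bad p c| ≤ (K ^ k + gm k) * (p : ℝ) ^ (β * k) := by
  have hp1 : (1 : ℝ) ≤ p := by exact_mod_cast hpr.one_lt.le
  have h0 : (1 : ℝ) ≤ (p : ℝ) ^ (β * k) := one_le_pow₀ hp1
  have hK0 : 0 ≤ K := by linarith [hH.one]
  unfold Gk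
  split_ifs
  · rw [abs_zero]
    positivity
  · refine (abs_sub _ _).trans ?_
    rw [abs_pow, Nat.abs_cast]
    have h1 : |H p c| ^ k ≤ K ^ k * (p : ℝ) ^ (β * k) := by
      rw [pow_mul, ← mul_pow]
      exact pow_le_pow_left₀ (abs_nonneg _) (hH.bd p hpr c) k
    have h2 : (gm k : ℝ) ≤ gm k * (p : ℝ) ^ (β * k) := le_mul_of_one_le_right (Nat.cast_nonneg _) h0
    nlinarith

/-- at most a proportion `C₀ / p` of the members over the field with `p` elements is bad -/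
def FewBad (Bad : (p : ℕ) → Set (κ → ZMod p)) (p₀ : ℕ) (C₀ : ℝ) : Prop :=
  ∀ p : ℕ, p.Prime → p₀ ≤ p → ((Bad p).ncard : ℝ) ≤ C₀ / p * (p : ℝ) ^ Fintype.card κ

variable {H}

lemma Gk_mean {m β p₁ p₀ : ℕ} {K C₀ : ℝ} (hH : NearN H m β p₁ K) (Bad : (p : ℕ) → Set (κ → ZMod p)) (hBad : FewBad Bad p₀ C₀)
    (k : ℕ) (hk : 2 * k ≤ m) :
    ∃ (K : ℝ) (p₁ : ℕ), 1 ≤ K ∧ ∀ p : ℕ, p.Prime → p₁ ≤ p →
      |mn (Gk H k Bad) p - 0| ≤ K / Real.sqrt p ∧ mn (fun p u => Gk H k Bad p u ^ 2) p ≤ K := by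
  classical
  have hK := hH.one
  obtain ⟨M, hM⟩ : ∃ M : ℝ, M = 2 * (gm (2 * k) + K) + 2 * (gm k : ℝ) ^ 2 := ⟨_, rfl⟩
  have hM0 : 2 ≤ M := by
    rw [hM]
    have : (0 : ℝ) ≤ gm (2 * k) := Nat.cast_nonneg _
    nlinarith [sq_nonneg (gm k : ℝ)]
  refine ⟨K + M + |C₀|, max p₀ p₁, by linarith [abs_nonneg C₀], fun p hpr hp => ?_⟩
  have : Fact p.Prime := ⟨hpr⟩
  have hpp₀ : p₀ ≤ p := (le_max_left _ _).trans hp
  have hpp₁ : p₁ ≤ p := (le_max_right _ _).trans hp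
  have hp1 : (1 : ℝ) ≤ p := by exact_mod_cast hpr.one_lt.le
  have hp0 : (0 : ℝ) < p := by linarith
  have hs0 : 0 < Real.sqrt p := Real.sqrt_pos.2 hp0
  have hs1 : 1 ≤ Real.sqrt p := Real.one_le_sqrt.2 hp1
  have hss : Real.sqrt p * Real.sqrt p = p := Real.mul_self_sqrt hp0.le
  have h1 := hH.mom p hpr hpp₁ k (by omega)
  have h2 := hH.mom p hpr hpp₁ (2 * k) hk
  have hKs : K / Real.sqrt p ≤ K := div_le_self (by linarith) hs1
  -- the second moment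
  obtain ⟨f, hf⟩ : ∃ f : (κ → ZMod p) → ℝ, f = fun c => H p c ^ k - (gm k : ℝ) := ⟨_, rfl⟩
  have hf2 : av (fun c => f c ^ 2) ≤ M := by
    have h3 : ∀ c, f c ^ 2 ≤ 2 * H p c ^ (2 * k) + 2 * (gm k : ℝ) ^ 2 := by
      intro c
      rw [hf]
      dsimp only
      rw [mul_comm 2 k, pow_mul]
      nlinarith [sq_nonneg (H p c ^ k + (gm k : ℝ))]
    refine (av_mono h3).trans ?_
    rw [av_add, av_mul, av_const, ← mn_eq (fun p c => H p c ^ (2 * k))]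
    rw [abs_le] at h2
    rw [hM]
    linarith [h2.2]
  have hG2 : mn (fun p u => Gk H k Bad p u ^ 2) p ≤ M := by
    rw [mn_eq (fun p u => Gk H k Bad p u ^ 2)]
    refine le_trans (av_mono fun c => ?_) hf2
    unfold Gk
    split_ifs
    · rw [zero_pow two_ne_zero]
      exact sq_nonneg _
    · rw [hf]
  refine ⟨?_, by linarith [abs_nonneg C₀]⟩
  -- the mean
  rw [sub_zero, mn_eq]
  have h3 : ∀ c : κ → ZMod p, |Gk H k Bad p c - f c| ≤ (1 / (2 * Real.sqrt p)) * f c ^ 2 + (Real.sqrt p / 2) * (if c ∈ Bad p then 1 else 0) := by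
    intro c
    unfold Gk
    split_ifs with hc
    · rw [zero_sub, abs_neg, mul_one]
      have h4 : 0 ≤ (1 / (2 * Real.sqrt p)) * (|f c| - Real.sqrt p) ^ 2 := by positivity
      have h5 : (1 / (2 * Real.sqrt p)) * (|f c| - Real.sqrt p) ^ 2 = (1 / (2 * Real.sqrt p)) * f c ^ 2 - |f c| + Real.sqrt p / 2 := by
        rw [sub_sq, sq_abs]
        field_simp
      linarith
    · rw [hf, sub_self, abs_zero]
      positivity
  have h4 : av (fun c : κ → ZMod p => (if c ∈ Bad p then (1 : ℝ) else 0)) ≤ |C₀| / p := by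
    unfold av
    rw [Fintype.card_fun, ZMod.card, sum_boole]
    push_cast
    rw [div_le_iff₀ (by positivity)]
    have h5 := hBad p hpr hpp₀
    have h6 : (univ.filter fun c : κ → ZMod p => c ∈ Bad p).card = (Bad p).ncard := by
      rw [← Set.ncard_coe_finset]
      congr 1
      ext c
      simp
    rw [h6]
    refine h5.trans ?_
    refine mul_le_mul_of_nonneg_right (div_le_div_of_nonneg_right (le_abs_self _) hp0.le) (by positivity)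
  have h5 : |av (Gk H k Bad p) - av f| ≤ (1 / (2 * Real.sqrt p)) * M + (Real.sqrt p / 2) * (|C₀| / p) := by
    rw [← av_sub]
    refine (abs_av_le _).trans ?_
    refine (av_mono h3).trans ?_
    rw [av_add, av_mul, av_mul]
    have h6 : (1 / (2 * Real.sqrt p)) * av (fun c => f c ^ 2) ≤ (1 / (2 * Real.sqrt p)) * M := mul_le_mul_of_nonneg_left hf2 (by positivity)
    have h7 : (Real.sqrt p / 2) * av (fun c : κ → ZMod p => (if c ∈ Bad p then (1 : ℝ) else 0)) ≤ (Real.sqrt p / 2) * (|C₀| / p) :=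
      mul_le_mul_of_nonneg_left h4 (by positivity)
    linarith
  have h6 : |av f| ≤ K / Real.sqrt p := by
    rw [hf, av_sub, av_const, ← mn_eq (fun p c => H p c ^ k)]
    exact h1
  have h7 : (1 / (2 * Real.sqrt p)) * M + (Real.sqrt p / 2) * (|C₀| / p) ≤ (M + |C₀|) / Real.sqrt p := by
    have e1 : (Real.sqrt p / 2) * (|C₀| / p) = (|C₀| / 2) / Real.sqrt p := by
      rw [eq_div_iff hs0.ne']
      have : Real.sqrt p / 2 * (|C₀| / p) * Real.sqrt p = (Real.sqrt p * Real.sqrt p) * (|C₀| / p) / 2 := by ring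
      rw [this, hss]
      field_simp
    have e2 : (1 / (2 * Real.sqrt p)) * M = (M / 2) / Real.sqrt p := by
      field_simp
    rw [e1, e2, ← add_div]
    refine div_le_div_of_nonneg_right ?_ hs0.le
    linarith [abs_nonneg C₀]
  have h8 : (K + M + |C₀|) / Real.sqrt p = K / Real.sqrt p + (M + |C₀|) / Real.sqrt p := by ring
  rw [h8]
  have h9 : |av (Gk H k Bad p)| ≤ |av f| + |av (Gk H k Bad p) - av f| := by
    have := abs_add_le (av f) (av (Gk H k Bad p) - av f)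
    rwa [add_sub_cancel] at this
  linarith

open Classical in
/-- the primes of `S` in the interval at which the member is not bad -/
noncomputable def VV (Bad : (p : ℕ) → Set (κ → ZMod p)) (S : Set ℕ) (Y Y' : ℕ) (t : κ → ℤ) : Finset ℕ :=
  (IV Y Y').filter fun p => p ∈ S ∧ (fun x => (t x : ZMod p)) ∉ Bad p

/-- **the law** -/
theorem law {β p₁ p₀ M : ℕ} {K C₀ : ℝ} (hM : 1 ≤ M) (hH : NearN H (4 * M) β p₁ K) (Bad : (p : ℕ) → Set (κ → ZMod p)) (hBad : FewBad Bad p₀ C₀)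
    (ε : ℝ) (hε : 0 < ε) (hε1 : ε ≤ 1) :
    ∃ κ₀ : ℝ, 0 < κ₀ ∧ ∃ C : ℝ, 1 ≤ C ∧ ∀ (S : Set ℕ) (N : κ → ℤ) (L : κ → ℕ) (T : ℝ), 0 < T → (∀ i, T ≤ L i) →
      ∀ X₀ : ℕ, 1 ≤ X₀ → ∃ E : Finset (κ → ℤ), E ⊆ kbox N L ∧ (E.card : ℝ) ≤ C * (X₀ : ℝ) ^ (-(ε / 2)) * ∏ i, (L i : ℝ) ∧
      ∀ t ∈ kbox N L, t ∉ E → ∀ Y Y' : ℕ, Y ≤ Y' → X₀ ≤ Y' → (Y' : ℝ) ≤ T ^ κ₀ →
        (∀ k ≤ 2 * M, |∑ p ∈ VV Bad S Y Y' t, (H p (fun y => (t y : ZMod p)) ^ k - (gm k : ℝ))| ≤ C * (Y' : ℝ) ^ (1 / 2 + ε / 2)) ∧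
        ((Y' : ℝ) ^ (1 / 2 + ε) ≤ (VV Bad S Y Y' t).card → ∀ x : ℝ,
          |(((VV Bad S Y Y' t).filter fun p => H p (fun y => (t y : ZMod p)) ≤ x).card : ℝ) / (VV Bad S Y Y' t).card - Phi x| ≤
            4 / Real.sqrt M + C * (Y' : ℝ) ^ (-(ε / 2))) := by
  classical
  obtain ⟨C₁, hC₁, hemp, _⟩ := Q282MM.emp Q282MM.fin_true M hM
  -- all the moments
  have hstep : ∀ k : ℕ, ∃ κ₀ : ℝ, 0 < κ₀ ∧ ∃ C : ℝ, 1 ≤ C ∧ (k ≤ 2 * M → ∀ (w : ℕ → ℝ), (∀ p, |w p| ≤ 1) → ∀ (N : κ → ℤ) (L : κ → ℕ) (T : ℝ),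
      0 < T → (∀ i, T ≤ L i) → ∀ X₀ : ℕ, 1 ≤ X₀ → ∃ E : Finset (κ → ℤ), E ⊆ kbox N L ∧ (E.card : ℝ) ≤ C * (X₀ : ℝ) ^ (-(ε / 2)) * ∏ i, (L i : ℝ) ∧
      ∀ t ∈ kbox N L, t ∉ E → ∀ Y Y' : ℕ, Y ≤ Y' → X₀ ≤ Y' → (Y' : ℝ) ≤ T ^ κ₀ →
        |∑ p ∈ IV Y Y', w p * (Gk H k Bad p (fun i => (t i : ZMod p)) - 0)| ≤ C * (Y' : ℝ) ^ (1 / 2 + ε / 2)) := by
    intro k
    by_cases hk : k ≤ 2 * M
    · obtain ⟨K₂, p₂, hK₂, h1⟩ := Gk_mean hH Bad hBad k (by omega)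
      have hK0 : 0 ≤ K := by linarith [hH.one]
      have hg0 : (0 : ℝ) ≤ gm k := Nat.cast_nonneg _
      have hKk : 0 ≤ K ^ k := pow_nonneg hK0 k
      have hKK : K₂ ≤ K₂ + K ^ k + gm k := by linarith
      obtain ⟨κ₀, hκ₀, C, hC, h2⟩ := lln (Gk H k Bad) (β * k) p₂ (K₂ + K ^ k + gm k) 0 (by linarith) (fun p hp u => by
          refine (Gk_abs hH k Bad p hp u).trans ?_
          refine mul_le_mul_of_nonneg_right ?_ (by positivity)
          linarith)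
        (fun p hp hpp => ((h1 p hp hpp).1).trans (div_le_div_of_nonneg_right hKK (Real.sqrt_nonneg _)))
        (fun p hp hpp => ((h1 p hp hpp).2).trans hKK) ε hε hε1
      exact ⟨κ₀, hκ₀, C, hC, fun _ => h2⟩
    · exact ⟨1, one_pos, 1, le_rfl, fun h => absurd h hk⟩
  choose κf hκf Cf hCf hstep using hstep
  obtain ⟨κ₀, hκ₀, hκmin⟩ : ∃ c : ℝ, 0 < c ∧ ∀ k ∈ range (2 * M + 1), c ≤ κf k := by
    have : ∀ s : Finset ℕ, ∃ c : ℝ, 0 < c ∧ ∀ k ∈ s, c ≤ κf k := by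
      intro s
      induction s using Finset.induction_on with
      | empty => exact ⟨1, one_pos, fun f hf => absurd hf (notMem_empty f)⟩
      | insert x s _ ih =>
        obtain ⟨c, hc, h'⟩ := ih
        refine ⟨min c (κf x), lt_min hc (hκf x), fun y hy => ?_⟩
        rcases mem_insert.1 hy with rfl | hy
        · exact min_le_right _ _
        · exact (min_le_left _ _).trans (h' y hy)
    exact this _
  obtain ⟨C₂, hC₂⟩ : ∃ C₂ : ℝ, C₂ = ∑ k ∈ range (2 * M + 1), Cf k := ⟨_, rfl⟩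
  have hCk : ∀ k ∈ range (2 * M + 1), Cf k ≤ C₂ := fun k hk => by
    rw [hC₂]
    exact single_le_sum (f := Cf) (fun i _ => by linarith [hCf i]) hk
  have hC₂1 : 1 ≤ C₂ := (hCf 0).trans (hCk 0 (mem_range.2 (by omega)))
  refine ⟨κ₀, hκ₀, C₂ + C₁ * C₂, by nlinarith, fun S N L T hT hTL X₀ hX₀ => ?_⟩
  have hX₀1 : (1 : ℝ) ≤ X₀ := by exact_mod_cast hX₀
  have hE : ∀ k : ℕ, ∃ E : Finset (κ → ℤ), E ⊆ kbox N L ∧ (k ≤ 2 * M → (E.card : ℝ) ≤ Cf k * (X₀ : ℝ) ^ (-(ε / 2)) * ∏ i, (L i : ℝ) ∧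
      ∀ t ∈ kbox N L, t ∉ E → ∀ Y Y' : ℕ, Y ≤ Y' → X₀ ≤ Y' → (Y' : ℝ) ≤ T ^ (κf k) →
        |∑ p ∈ IV Y Y', (if p ∈ S then (1 : ℝ) else 0) * (Gk H k Bad p (fun i => (t i : ZMod p)) - 0)| ≤ Cf k * (Y' : ℝ) ^ (1 / 2 + ε / 2)) := by
    intro k
    by_cases hk : k ≤ 2 * M
    · obtain ⟨E, hE1, hE2, hE3⟩ := hstep k hk (fun p => if p ∈ S then (1 : ℝ) else 0) (fun p => by split_ifs <;> simp) N L T hT hTL X₀ hX₀
      exact ⟨E, hE1, fun _ => ⟨hE2, hE3⟩⟩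
    · exact ⟨∅, empty_subset _, fun h => absurd h hk⟩
  choose Ef hEf1 hEf2 using hE
  refine ⟨(range (2 * M + 1)).biUnion Ef, ?_, ?_, ?_⟩
  · exact biUnion_subset.2 fun k _ => hEf1 k
  · refine le_trans (Nat.cast_le.2 card_biUnion_le) ?_
    push_cast
    have h1 : ∀ k ∈ range (2 * M + 1), ((Ef k).card : ℝ) ≤ Cf k * (X₀ : ℝ) ^ (-(ε / 2)) * ∏ i, (L i : ℝ) := fun k hk =>
      (hEf2 k (by have := mem_range.1 hk; omega)).1
    refine (sum_le_sum h1).trans ?_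
    rw [← sum_mul, ← sum_mul, ← hC₂]
    have h2 : (0 : ℝ) ≤ ∏ i, (L i : ℝ) := prod_nonneg fun _ _ => Nat.cast_nonneg _
    refine mul_le_mul_of_nonneg_right (mul_le_mul_of_nonneg_right ?_ (by positivity)) h2
    nlinarith
  · intro t ht hnt Y Y' hYY hY hYT
    rw [mem_biUnion] at hnt
    push Not at hnt
    have hY1 : (1 : ℝ) ≤ Y' := by
      have : 1 ≤ Y' := hX₀.trans hY
      exact_mod_cast this
    have hY0 : (0 : ℝ) < Y' := by linarith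
    obtain ⟨V, hV⟩ : ∃ V : Finset ℕ, V = VV Bad S Y Y' t := ⟨_, rfl⟩
    rw [← hV]
    have hT1 : 1 ≤ T := by
      by_contra hlt
      push Not at hlt
      have := Real.rpow_lt_one hT.le hlt hκ₀
      linarith
    obtain ⟨z, hz⟩ : ∃ z : ℕ → ℝ, z = fun p => H p (fun y => (t y : ZMod p)) := ⟨_, rfl⟩
    have hmom0 : ∀ k ≤ 2 * M, |∑ p ∈ V, (z p ^ k - (gm k : ℝ))| ≤ C₂ * (Y' : ℝ) ^ (1 / 2 + ε / 2) := by
      intro k hk
      have hkr : k ∈ range (2 * M + 1) := mem_range.2 (by omega)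
      have h1 := (hEf2 k hk).2 t ht (hnt k hkr) Y Y' hYY hY (hYT.trans (Real.rpow_le_rpow_of_exponent_le hT1 (hκmin k hkr)))
      have h2 : ∑ p ∈ IV Y Y', (if p ∈ S then (1 : ℝ) else 0) * (Gk H k Bad p (fun i => (t i : ZMod p)) - 0) =
          ∑ p ∈ V, (z p ^ k - (gm k : ℝ)) := by
        rw [hV]
        unfold VV
        rw [sum_filter]
        refine sum_congr rfl fun p _ => ?_
        unfold Gk
        rw [hz]
        by_cases hS : p ∈ S <;> by_cases hb : (fun x => (t x : ZMod p)) ∈ Bad p <;> simp [hS, hb]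
      rw [h2] at h1
      exact h1.trans (mul_le_mul_of_nonneg_right (hCk k hkr) (by positivity))
    refine ⟨fun k hk => ?_, fun hcard x => ?_⟩
    · have h1 := hmom0 k hk
      rw [hz] at h1
      refine h1.trans (mul_le_mul_of_nonneg_right ?_ (by positivity))
      nlinarith
    have hVpos : (0 : ℝ) < V.card := lt_of_lt_of_le (Real.rpow_pos_of_pos hY0 _) hcard
    have hVne : V.Nonempty := by
      rw [← card_pos]
      exact_mod_cast hVpos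
    have hmom : ∀ k ≤ 2 * M, |(∑ p ∈ V, z p ^ k) / (V.card : ℝ) - (gm k : ℝ)| ≤ C₂ * (Y' : ℝ) ^ (-(ε / 2)) := by
      intro k hk
      have h1 := hmom0 k hk
      rw [sum_sub_distrib, sum_const, nsmul_eq_mul] at h1
      have h3 : (∑ p ∈ V, z p ^ k) / (V.card : ℝ) - (gm k : ℝ) = (∑ p ∈ V, z p ^ k - V.card * (gm k : ℝ)) / V.card := by
        rw [sub_div, mul_div_cancel_left₀ _ hVpos.ne']
      rw [h3, abs_div, abs_of_pos hVpos, div_le_iff₀ hVpos]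
      refine h1.trans ?_
      have h4 : (Y' : ℝ) ^ (1 / 2 + ε / 2) = (Y' : ℝ) ^ (-(ε / 2)) * (Y' : ℝ) ^ (1 / 2 + ε) := by
        rw [← Real.rpow_add hY0]
        congr 1
        ring
      rw [h4]
      have h6 : 0 ≤ (Y' : ℝ) ^ (-(ε / 2)) := by positivity
      calc C₂ * ((Y' : ℝ) ^ (-(ε / 2)) * (Y' : ℝ) ^ (1 / 2 + ε)) ≤ C₂ * ((Y' : ℝ) ^ (-(ε / 2)) * V.card) :=
            mul_le_mul_of_nonneg_left (mul_le_mul_of_nonneg_left hcard h6) (by linarith)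
        _ = _ := by ring
    have hmain := hemp ℕ V z (C₂ * (Y' : ℝ) ^ (-(ε / 2))) hVne (by positivity) hmom x
    rw [hz] at hmain
    refine hmain.trans ?_
    have h6 : 0 ≤ (Y' : ℝ) ^ (-(ε / 2)) := by positivity
    have h7 : C₁ * (C₂ * (Y' : ℝ) ^ (-(ε / 2))) ≤ (C₂ + C₁ * C₂) * (Y' : ℝ) ^ (-(ε / 2)) := by nlinarith
    linarith

end Q285HS
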