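import Pool.Agent.Q285.HS.Loc
import Pool.Agent.Q285.HS.Law
import Pool.Agent.Y722.LS.Bad

/-!
# Members of linear systems: the moments with any centre; projective space; singular members
-/

set_option autoImplicit false
set_option linter.unusedSectionVars false

namespace Q285HS

open Finset Filter
open Q282.CL
open Q282.GK (kbox)
open Q282MM (gm Phi)
open Pool.Agent.Y722.HS (Mon mev mkMon mkMon_apply IsSmooth)
open scoped LinearAlgebra.Projectivization

section shift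

variable {κ : Type} [Fintype κ] [DecidableEq κ]

/-- a small shift -/
lemma near_shift {H : (p : ℕ) → (κ → ZMod p) → ℝ} {k β p₁ : ℕ} {K : ℝ} (hH : NearN H k β p₁ K) (s : ℕ → ℝ) (p₀ : ℕ) (C₀ : ℝ)
    (hs : ∀ p : ℕ, p.Prime → p₀ ≤ p → |s p| ≤ C₀ / Real.sqrt p) :
    ∃ (K' : ℝ) (p₂ : ℕ), NearN (fun p c => H p c + s p) k β p₂ K' := by
  classical
  have hK := hH.one
  obtain ⟨G, hG⟩ : ∃ G : ℝ, G = ∑ j ∈ range (k + 1), (gm j : ℝ) := ⟨_, rfl⟩
  have hGj : ∀ j ≤ k, (gm j : ℝ) ≤ G := fun j hj => by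
    rw [hG]
    exact single_le_sum (f := fun j => (gm j : ℝ)) (fun i _ => Nat.cast_nonneg _) (mem_range.2 (by omega))
  have hG0 : 0 ≤ G := (Nat.cast_nonneg _).trans (hGj 0 (by omega))
  obtain ⟨C₁, hC₁⟩ : ∃ C₁ : ℝ, C₁ = |C₀| + 1 := ⟨_, rfl⟩
  have hC₁1 : 1 ≤ C₁ := by
    rw [hC₁]
    linarith [abs_nonneg C₀]
  obtain ⟨B, hB⟩ : ∃ B : ℝ, B = ∑ p ∈ range p₀, |s p| := ⟨_, rfl⟩
  have hB0 : 0 ≤ B := by
    rw [hB]
    positivity
  have hsB : ∀ p : ℕ, p.Prime → |s p| ≤ B + C₁ := by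
    intro p hp
    by_cases h : p₀ ≤ p
    · have h1 := hs p hp h
      have h2 : (1 : ℝ) ≤ Real.sqrt p := Real.one_le_sqrt.2 (by exact_mod_cast hp.one_lt.le)
      have h3 : C₀ / Real.sqrt p ≤ C₁ := by
        rw [div_le_iff₀ (by linarith)]
        have := le_abs_self C₀
        nlinarith [abs_nonneg C₀]
      linarith
    · rw [not_le] at h
      have h1 : |s p| ≤ B := by
        rw [hB]
        exact single_le_sum (f := fun p => |s p|) (fun i _ => abs_nonneg _) (mem_range.2 h)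
      linarith
  refine ⟨K + B + C₁ + 2 ^ k * (C₁ ^ k * (G + K)), max p₀ p₁, ?_, ?_, ?_⟩
  · have : 0 ≤ 2 ^ k * (C₁ ^ k * (G + K)) := by positivity
    linarith
  · intro p hp u
    have hp1 : (1 : ℝ) ≤ p := by exact_mod_cast hp.one_lt.le
    have h0 : (1 : ℝ) ≤ (p : ℝ) ^ β := one_le_pow₀ hp1
    refine (abs_add_le _ _).trans ?_
    have h1 := hH.bd p hp u
    have h2 := hsB p hp
    have h3 : 0 ≤ 2 ^ k * (C₁ ^ k * (G + K)) * (p : ℝ) ^ β := by positivity
    nlinarith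
  · intro p hp hpp j hj
    have : Fact p.Prime := ⟨hp⟩
    have hp1 : (1 : ℝ) ≤ p := by exact_mod_cast hp.one_lt.le
    have hs1 : (1 : ℝ) ≤ Real.sqrt p := Real.one_le_sqrt.2 hp1
    have hs0 : (0 : ℝ) < Real.sqrt p := by linarith
    have hpp₀ : p₀ ≤ p := (le_max_left _ _).trans hpp
    have hpp₁ : p₁ ≤ p := (le_max_right _ _).trans hpp
    have hsp : |s p| ≤ C₁ / Real.sqrt p := by
      refine (hs p hp hpp₀).trans (div_le_div_of_nonneg_right ?_ hs0.le)
      rw [hC₁]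
      linarith [le_abs_self C₀]
    have e1 : mn (fun p c => (H p c + s p) ^ j) p = ∑ i ∈ range (j + 1), (s p ^ (j - i) * (j.choose i : ℝ)) * mn (fun p c => H p c ^ i) p := by
      rw [mn_eq (fun p c => (H p c + s p) ^ j)]
      have h1 : (fun c => (H p c + s p) ^ j) = fun c => ∑ i ∈ range (j + 1), (s p ^ (j - i) * (j.choose i : ℝ)) * H p c ^ i := by
        funext c
        rw [add_pow]
        exact sum_congr rfl fun i _ => by ring
      rw [h1, av_sum]
      refine sum_congr rfl fun i _ => ?_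
      rw [av_mul, mn_eq (fun p c => H p c ^ i)]
    rw [e1, sum_range_succ, Nat.sub_self, pow_zero, Nat.choose_self, Nat.cast_one, one_mul, one_mul]
    have h1 := hH.mom p hp hpp₁ j hj
    have h2 : |∑ i ∈ range j, (s p ^ (j - i) * (j.choose i : ℝ)) * mn (fun p c => H p c ^ i) p| ≤ 2 ^ k * (C₁ ^ k * (G + K)) / Real.sqrt p := by
      refine (abs_sum_le_sum_abs _ _).trans ?_
      have h3 : ∀ i ∈ range j, |(s p ^ (j - i) * (j.choose i : ℝ)) * mn (fun p c => H p c ^ i) p| ≤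
          (j.choose i : ℝ) * (C₁ ^ k / Real.sqrt p * (G + K)) := by
        intro i hi
        rw [mem_range] at hi
        rw [abs_mul, abs_mul, abs_pow, Nat.abs_cast, mul_comm (|s p| ^ (j - i)), mul_assoc]
        refine mul_le_mul_of_nonneg_left ?_ (Nat.cast_nonneg _)
        have h4 : |s p| ^ (j - i) ≤ C₁ ^ k / Real.sqrt p := by
          refine (pow_le_pow_left₀ (abs_nonneg _) hsp (j - i)).trans ?_
          rw [div_pow]
          have h5 : C₁ ^ (j - i) ≤ C₁ ^ k := pow_le_pow_right₀ hC₁1 (by omega)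
          have h6 : Real.sqrt p ≤ Real.sqrt p ^ (j - i) := le_self_pow₀ hs1 (by omega)
          exact div_le_div₀ (by positivity) h5 hs0 h6
        have h5 : |mn (fun p c => H p c ^ i) p| ≤ G + K := by
          have h6 := hH.mom p hp hpp₁ i (by omega)
          have h7 : K / Real.sqrt p ≤ K := div_le_self (by linarith) hs1
          have h8 := hGj i (by omega)
          have h9 : (0 : ℝ) ≤ gm i := Nat.cast_nonneg _
          rw [abs_le] at h6 ⊢
          constructor <;> linarith [h6.1, h6.2]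
        exact mul_le_mul h4 h5 (abs_nonneg _) (by positivity)
      refine (sum_le_sum h3).trans ?_
      rw [← sum_mul]
      have h4 : ∑ i ∈ range j, (j.choose i : ℝ) ≤ 2 ^ k := by
        have h5 := Nat.sum_range_choose j
        rw [sum_range_succ] at h5
        have h6 : ∑ i ∈ range j, (j.choose i : ℝ) ≤ ((2 ^ j : ℕ) : ℝ) := by
          rw [← Nat.cast_sum]
          exact Nat.cast_le.2 (by omega)
        refine h6.trans ?_
        push_cast
        exact pow_le_pow_right₀ (by norm_num) hj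
      calc (∑ i ∈ range j, (j.choose i : ℝ)) * (C₁ ^ k / Real.sqrt p * (G + K)) ≤ 2 ^ k * (C₁ ^ k / Real.sqrt p * (G + K)) :=
            mul_le_mul_of_nonneg_right h4 (by positivity)
        _ = _ := by ring
    have h3 : (K + B + C₁ + 2 ^ k * (C₁ ^ k * (G + K))) / Real.sqrt p =
        K / Real.sqrt p + (B + C₁) / Real.sqrt p + 2 ^ k * (C₁ ^ k * (G + K)) / Real.sqrt p := by ring
    rw [h3]
    have h4 : 0 ≤ (B + C₁) / Real.sqrt p := by positivity
    have h5 := abs_add_le (∑ i ∈ range j, (s p ^ (j - i) * (j.choose i : ℝ)) * mn (fun p c => H p c ^ i) p) (mn (fun p c => H p c ^ j) p - gm j)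
    rw [← add_sub_assoc] at h5
    linarith

end shift

variable {n : ℕ} {J : Type} [Fintype J] [DecidableEq J] {d : J → ℕ} (g : J → MvPolynomial (Fin (n + 1)) ℤ) (W : Set (MvPolynomial (Fin (n + 1)) ℤ))

lemma card_proj (p : ℕ) [hp : Fact p.Prime] (A : Finset (ℙ (ZMod p) (Fin (n + 1) → ZMod p))) : (A.card : ℝ) ≤ (p : ℝ) ^ (n + 1) := by
  classical
  have h1 : Function.Injective (fun P : ℙ (ZMod p) (Fin (n + 1) → ZMod p) => P.rep) := by
    intro P Q h
    dsimp only at h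
    by_contra hne
    obtain ⟨i, j, hij⟩ := rep_ne hne
    rw [h] at hij
    exact hij (mul_comm _ _)
  have h2 : A.card ≤ Fintype.card (Fin (n + 1) → ZMod p) := by
    rw [← card_image_of_injective A h1]
    exact card_le_univ _
  rw [Fintype.card_fun, ZMod.card, Fintype.card_fin] at h2
  exact_mod_cast h2

lemma HH_abs (D p : ℕ) (hpr : p.Prime) (c : Idx n d → ZMod p) : |HH g W D p c| ≤ 1 * (p : ℝ) ^ (n + 1) := by
  have : Fact p.Prime := ⟨hpr⟩
  have hp1 : (1 : ℝ) ≤ p := by exact_mod_cast hpr.one_lt.le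
  have hs : 1 ≤ Real.sqrt p ^ (D - 1) := one_le_pow₀ (Real.one_le_sqrt.2 hp1)
  rw [HH_eq, abs_div, abs_of_pos (by linarith : 0 < Real.sqrt p ^ (D - 1)), div_le_iff₀ (by linarith), one_mul]
  have h1 : |sm (ev (d := d) g p) (AA g W p) (fun _ => ph p) c| ≤ (p : ℝ) ^ (n + 1) := by
    unfold sm
    refine (abs_sum_le_sum_abs _ _).trans ((sum_le_sum fun t _ => ph_abs p _).trans ?_)
    rw [sum_const, nsmul_eq_mul, mul_one]
    exact card_proj p _
  have h2 : 0 ≤ (p : ℝ) ^ (n + 1) := by positivity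
  nlinarith

variable {g W}

theorem near_HH {D p₀ : ℕ} {C₀ : ℝ} (hD : 2 ≤ D) (hsz : Sz g W D p₀ C₀) (k : ℕ) (hd : ∀ j, k ≤ d j + 1) :
    ∃ (K : ℝ) (p₁ : ℕ), NearN (HH (d := d) g W D) k (n + 1) p₁ K := by
  obtain ⟨K, p₁, hK, h⟩ := loc_mom hD hsz k hd
  refine ⟨K, p₁, hK, fun p hp u => (HH_abs g W D p hp u).trans ?_, h⟩
  exact mul_le_mul_of_nonneg_right hK (by positivity)

variable (g W)

/-- the deviation of the number of the points from `c p` -/
noncomputable def tr (D : ℕ) (c : ℕ → ℝ) (p : ℕ) (t : Idx n d → ℤ) : ℝ :=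
  ((points p (W ∪ {fam g t}) : ℝ) - c p) / Real.sqrt p ^ (D - 1)

/-- the shift -/
noncomputable def shf (D : ℕ) (c : ℕ → ℝ) (p : ℕ) : ℝ :=
  ((points p (W ∪ Set.range g) : ℝ) + ((points p W : ℝ) - points p (W ∪ Set.range g)) / p - c p) / Real.sqrt p ^ (D - 1)

lemma tr_eq (D : ℕ) (c : ℕ → ℝ) (p : ℕ) (hpr : p.Prime) (t : Idx n d → ℤ) :
    tr g W D c p t = HH g W D p (fun x => (t x : ZMod p)) + shf g W D c p := by
  have : Fact p.Prime := ⟨hpr⟩
  have hp0 : (0 : ℝ) < p := by exact_mod_cast hpr.pos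
  have hs0 : Real.sqrt p ^ (D - 1) ≠ 0 := pow_ne_zero _ (Real.sqrt_pos.2 hp0).ne'
  unfold tr shf
  rw [points_eq g W D p t]
  field_simp
  ring

variable {g W}

/-- the moments with the centre `c` -/
theorem near_tr {D p₀ : ℕ} {C₀ : ℝ} (hD : 2 ≤ D) (hsz : Sz g W D p₀ C₀) (c : ℕ → ℝ)
    (hc : ∀ p : ℕ, p.Prime → p₀ ≤ p → |shf g W D c p| ≤ C₀ / Real.sqrt p) (k : ℕ) (hd : ∀ j, k ≤ d j + 1) :
    ∃ (K : ℝ) (p₁ : ℕ), NearN (fun p u => HH (d := d) g W D p u + shf g W D c p) k (n + 1) p₁ K := by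
  obtain ⟨K, p₁, h⟩ := near_HH hD hsz k hd
  exact near_shift h _ p₀ C₀ hc

/-! ### projective space -/

lemma points_empty (p : ℕ) (hpr : p.Prime) : points (n := n) p ∅ = ∑ i ∈ range (n + 1), p ^ i := by
  have : Fact p.Prime := ⟨hpr⟩
  unfold points
  rw [dif_pos hpr]
  have h1 : Nat.card {P : ℙ (ZMod p) (Fin (n + 1) → ZMod p) // ∀ G ∈ (∅ : Set (MvPolynomial (Fin (n + 1)) ℤ)), MvPolynomial.aeval P.rep G = 0} =
      Nat.card (ℙ (ZMod p) (Fin (n + 1) → ZMod p)) := by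
    refine Nat.card_congr (Equiv.subtypeUnivEquiv fun P => ?_)
    simp
  rw [h1, Projectivization.card_of_finrank (n := n + 1) (ZMod p) _ (by simp), Nat.card_zmod]

lemma points_one (p : ℕ) : points (n := n) p (∅ ∪ Set.range fun _ : Unit => (1 : MvPolynomial (Fin (n + 1)) ℤ)) = 0 := by
  unfold points
  split_ifs with hpr
  · have : Fact p.Prime := ⟨hpr⟩
    rw [Nat.card_eq_zero]
    left
    refine ⟨fun P => ?_⟩
    have h1 := P.2 1 (Or.inr ⟨(), rfl⟩)
    rw [map_one] at h1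
    exact one_ne_zero h1
  · rfl

lemma geo_le (p : ℕ) (hp : 2 ≤ p) (n : ℕ) : ∑ i ∈ range n, (p : ℝ) ^ i ≤ (p : ℝ) ^ n := by
  induction n with
  | zero => simp
  | succ n ih =>
    rw [sum_range_succ, pow_succ]
    have h1 : (2 : ℝ) ≤ p := by exact_mod_cast hp
    have h2 : 0 ≤ (p : ℝ) ^ n := by positivity
    nlinarith

/-- the sizes for projective space -/
lemma sz_proj (hn : 1 ≤ n) : Sz (fun _ : Unit => (1 : MvPolynomial (Fin (n + 1)) ℤ)) ∅ n 2 2 := by
  constructor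
  · intro p hpr hp
    have hp0 : (0 : ℝ) < p := by exact_mod_cast hpr.pos
    have hp1 : (1 : ℝ) ≤ p := by exact_mod_cast hpr.one_lt.le
    have hs0 : 0 < Real.sqrt p := Real.sqrt_pos.2 hp0
    have hss : Real.sqrt p * Real.sqrt p = p := Real.mul_self_sqrt hp0.le
    rw [points_empty p hpr]
    push_cast
    rw [sum_range_succ, add_sub_cancel_right, abs_of_nonneg (by positivity), ← mul_div_assoc, le_div_iff₀ hs0]
    obtain ⟨m, rfl⟩ : ∃ m, n = m + 1 := ⟨n - 1, by omega⟩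
    have h2 := geo_le p hp m
    have h4 : (0 : ℝ) ≤ (p : ℝ) ^ m := by positivity
    have h5 : ∑ i ∈ range (m + 1), (p : ℝ) ^ i ≤ 2 * (p : ℝ) ^ m := by
      rw [sum_range_succ]
      linarith
    have h6 : Real.sqrt p ≤ p := by
      nlinarith [Real.one_le_sqrt.2 hp1]
    calc (∑ i ∈ range (m + 1), (p : ℝ) ^ i) * Real.sqrt p ≤ (2 * (p : ℝ) ^ m) * p := mul_le_mul h5 h6 hs0.le (by positivity)
      _ = 2 * (p : ℝ) ^ (m + 1) := by ring
  · intro p hpr hp
    rw [points_one]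
    have hp0 : (0 : ℝ) < p := by exact_mod_cast hpr.pos
    rw [Nat.cast_zero]
    positivity

/-- the centre `1 + p + … + p ^ (n - 1)` -/
noncomputable def cen (n p : ℕ) : ℝ := ∑ i ∈ range n, (p : ℝ) ^ i

lemma shf_proj (p : ℕ) (hpr : p.Prime) :
    |shf (fun _ : Unit => (1 : MvPolynomial (Fin (n + 1)) ℤ)) ∅ n (cen n) p| ≤ 2 / Real.sqrt p := by
  have hp0 : (0 : ℝ) < p := by exact_mod_cast hpr.pos
  have hp1 : (1 : ℝ) ≤ p := by exact_mod_cast hpr.one_lt.le
  have hs0 : 0 < Real.sqrt p := Real.sqrt_pos.2 hp0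
  have hs1 : 1 ≤ Real.sqrt p := Real.one_le_sqrt.2 hp1
  have hss : Real.sqrt p * Real.sqrt p = p := Real.mul_self_sqrt hp0.le
  unfold shf cen
  rw [points_one, points_empty p hpr]
  push_cast
  rw [sum_range_succ']
  have h1 : (0 : ℝ) + ((∑ i ∈ range n, (p : ℝ) ^ (i + 1) + (p : ℝ) ^ 0) - 0) / p - ∑ i ∈ range n, (p : ℝ) ^ i = 1 / p := by
    have h2 : ∑ i ∈ range n, (p : ℝ) ^ (i + 1) = (∑ i ∈ range n, (p : ℝ) ^ i) * p := by
      rw [sum_mul]
      exact sum_congr rfl fun i _ => pow_succ _ _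
    rw [h2]
    field_simp
    ring
  rw [h1, abs_div, abs_of_pos (by positivity : (0 : ℝ) < 1 / p), abs_of_pos (by positivity : (0 : ℝ) < Real.sqrt p ^ (n - 1)), div_div]
  refine (div_le_div_iff₀ (by positivity) hs0).2 ?_
  have h2 : 1 ≤ Real.sqrt p ^ (n - 1) := one_le_pow₀ hs1
  nlinarith

/-- reindexing -/
lemma near_equiv {κ κ' : Type} [Fintype κ] [DecidableEq κ] [Fintype κ'] [DecidableEq κ'] (e : κ ≃ κ') {H : (p : ℕ) → (κ → ZMod p) → ℝ}
    {k β p₁ : ℕ} {K : ℝ} (hH : NearN H k β p₁ K) : NearN (fun p (u : κ' → ZMod p) => H p fun i => u (e i)) k β p₁ K := by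
  refine ⟨hH.one, fun p hp u => hH.bd p hp _, fun p hp hpp j hj => ?_⟩
  have : Fact p.Prime := ⟨hp⟩
  have h1 := hH.mom p hp hpp j hj
  have h2 : mn (fun p (u : κ' → ZMod p) => (H p fun i => u (e i)) ^ j) p = mn (fun p c => H p c ^ j) p := by
    rw [mn_eq (fun p (u : κ' → ZMod p) => (H p fun i => u (e i)) ^ j), mn_eq (fun p c => H p c ^ j)]
    rw [av_equiv (Equiv.arrowCongr e (Equiv.refl (ZMod p))) (fun u : κ' → ZMod p => (H p fun i => u (e i)) ^ j)]
    congr 1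
    funext c
    congr 2
    funext i
    simp [Equiv.arrowCongr]
  rw [h2]
  exact h1

end Q285HS
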