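import Pool.Agent.Q285.NG.Main

/-!
# Characteristic functions over boxes under a Lindeberg type condition, local functions of polynomial size
-/

set_option autoImplicit false
set_option linter.unusedSectionVars false

namespace Q285HS

open Finset
open Q282.CL
open Q282.BP (bx mem_bx card_bx PP)
open Q282.GK (kbox mean_res)
open Q285NG

/-- the conditions -/
structure Lin (κ : Type) [Fintype κ] [DecidableEq κ] (C₂ C₄ : ℝ) (β n X : ℕ) (L : κ → ℕ) (H : (p : ℕ) → (κ → ZMod p) → ℝ)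
    (lam : ℕ → ℝ) : Prop where
  hX : 2 ≤ X
  hL : ∀ i, (X : ℝ) ^ n ≤ L i
  hH : ∀ p ∈ PP X, ∀ u, |H p u| ≤ (X : ℝ) ^ β
  hl : ∀ p, |lam p| ≤ 1
  h2 : ∑ p ∈ PP X, lam p ^ 2 ≤ C₂
  h3 : ∑ p ∈ PP X, |lam p| ^ 3 ≤ 1 / (n + 1)
  h4 : ∀ p ∈ PP X, mn (fun p u => H p u ^ 4) p ≤ C₄
  hm : ∑ p ∈ PP X, |lam p| * |mn H p| ≤ 1 / (n + 1)

variable {κ : Type} [Fintype κ] [DecidableEq κ]

theorem chr_lin (β : ℕ) (C₂ C₄ R ε : ℝ) (hC₂ : 0 ≤ C₂) (hC₄ : 0 ≤ C₄) (hR : 0 < R) (hε : 0 < ε) : ∃ n₀ : ℕ, ∀ n : ℕ, n₀ ≤ n →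
    ∀ (X : ℕ) (N : κ → ℤ) (L : κ → ℕ) (H : (p : ℕ) → (κ → ZMod p) → ℝ) (lam : ℕ → ℝ), Lin κ C₂ C₄ β n X L H lam →
    ∀ w : ℕ → ℝ, (∀ p, |w p| ≤ R * |lam p|) →
    ‖av (fun t : kbox N L => Complex.exp (((∑ p ∈ PP X, w p * H p (fun i => ((t : κ → ℤ) i : ZMod p)) : ℝ) : ℂ) * Complex.I)) -
      Complex.exp ((-((∑ p ∈ PP X, w p ^ 2 * mn (fun p u => H p u ^ 2) p) / 2) : ℝ) : ℂ)‖ ≤ ε := by
  classical
  -- the constants
  obtain ⟨A₀, hA₀⟩ : ∃ A₀ : ℝ, A₀ = R ^ 2 * C₂ * (C₄ + 1) ^ 2 := ⟨_, rfl⟩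
  have hA₀0 : 0 ≤ A₀ := by
    rw [hA₀]
    positivity
  obtain ⟨δ, hδ⟩ : ∃ δ : ℝ, δ = min (ε ^ 2 / 32) (ε / 8) := ⟨_, rfl⟩
  have hδ0 : 0 < δ := by
    rw [hδ]
    exact lt_min (by positivity) (by positivity)
  have hδ1 : δ ≤ ε ^ 2 / 32 := by
    rw [hδ]
    exact min_le_left _ _
  have hδ2 : δ ≤ ε / 8 := by
    rw [hδ]
    exact min_le_right _ _
  obtain ⟨ρ, hρ⟩ : ∃ ρ : ℝ, ρ = 1 + A₀ / δ := ⟨_, rfl⟩
  have hρ1 : 1 ≤ ρ := by
    rw [hρ]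
    have : 0 ≤ A₀ / δ := by positivity
    linarith
  have hρ0 : 0 < ρ := by linarith
  have hAρ : A₀ / ρ ^ 2 ≤ δ := by
    rw [div_le_iff₀ (by positivity)]
    have h1 : A₀ ≤ δ * ρ := by
      rw [hρ, mul_add, mul_one, mul_div_cancel₀ _ hδ0.ne']
      linarith
    have h2 : ρ ≤ ρ ^ 2 := by nlinarith
    nlinarith
  obtain ⟨V, hV⟩ : ∃ V : ℝ, V = (2 * ρ * R) ^ 2 * C₂ + 1 := ⟨_, rfl⟩
  have hV0 : 0 < V := by
    rw [hV]
    positivity
  obtain ⟨k, hk1, hk⟩ := exists_k V (ε / 16) hV0 (by positivity)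
  obtain ⟨C, hC⟩ : ∃ C : ℝ, C = 1 + 2 * ρ * R := ⟨_, rfl⟩
  have hC1 : 1 ≤ C := by
    rw [hC]
    have : 0 ≤ 2 * ρ * R := by positivity
    linarith
  obtain ⟨n₁, hn₁⟩ := tail_small (Fintype.card κ) (2 + 2 * β) 2 ((2 * R) ^ 2) (ε ^ 2 / 32) (by positivity) (by positivity)
  obtain ⟨n₂, hn₂⟩ := tail_small (Fintype.card κ) (2 * k) (2 * k) ((2 * k + 1) * 2 ^ (2 * k) * C ^ (2 * k)) (ε / 16) (by positivity) (by positivity)
  obtain ⟨n₃, hn₃⟩ := exists_nat_ge (R * 8 / ε + (2 * ρ * R) ^ 3 * (1 + 2 * ρ * R) * 16 / ε + R ^ 2 * (1 + C₄) * 8 / ε)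
  refine ⟨max (max n₁ n₂) n₃, fun n hn X N L H lam hD w hw => ?_⟩
  have hnn₁ : n₁ ≤ n := ((le_max_left _ _).trans (le_max_left _ _)).trans hn
  have hnn₂ : n₂ ≤ n := ((le_max_right _ _).trans (le_max_left _ _)).trans hn
  have hnn₃ : (n₃ : ℝ) ≤ n := by exact_mod_cast (le_max_right _ _).trans hn
  have hn0 : (0 : ℝ) < n + 1 := by positivity
  have hq1 : 0 ≤ R * 8 / ε := by positivity
  have hq2 : 0 ≤ (2 * ρ * R) ^ 3 * (1 + 2 * ρ * R) * 16 / ε := by positivity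
  have hq3 : 0 ≤ R ^ 2 * (1 + C₄) * 8 / ε := by positivity
  have hs1 : R * (1 / (n + 1 : ℝ)) ≤ ε / 8 := by
    have h1 : R * 8 / ε ≤ n + 1 := by linarith
    rw [div_le_iff₀ hε] at h1
    rw [mul_one_div, div_le_iff₀ hn0]
    linarith
  have hs2 : (2 * ρ * R) ^ 3 * (1 + 2 * ρ * R) * (1 / (n + 1 : ℝ)) ≤ ε / 16 := by
    have h1 : (2 * ρ * R) ^ 3 * (1 + 2 * ρ * R) * 16 / ε ≤ n + 1 := by linarith
    rw [div_le_iff₀ hε] at h1
    rw [mul_one_div, div_le_iff₀ hn0]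
    linarith
  have hs3 : R ^ 2 * (1 + C₄) * (1 / (n + 1 : ℝ)) ≤ ε / 8 := by
    have h1 : R ^ 2 * (1 + C₄) * 8 / ε ≤ n + 1 := by linarith
    rw [div_le_iff₀ hε] at h1
    rw [mul_one_div, div_le_iff₀ hn0]
    linarith
  have hX2 : (2 : ℝ) ≤ X := by exact_mod_cast hD.hX
  have hX0 : (0 : ℝ) < X := by linarith
  have hXn : (0 : ℝ) < (X : ℝ) ^ n := by positivity
  have hL0 : ∀ i, 0 < L i := fun i => by
    have : (0 : ℝ) < L i := hXn.trans_le (hD.hL i)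
    exact_mod_cast this
  have hne : Nonempty (kbox N L) := kbox_nonempty hL0
  have hPP : ∀ p ∈ PP X, p.Prime := fun p hp => (mem_filter.1 hp).2
  -- truncation
  obtain ⟨Ht, hHt⟩ : ∃ Ht : (p : ℕ) → (κ → ZMod p) → ℝ, Ht = fun p u => tr ρ (H p u) := ⟨_, rfl⟩
  obtain ⟨Hr, hHr⟩ : ∃ Hr : (p : ℕ) → (κ → ZMod p) → ℝ, Hr = fun p u => H p u - tr ρ (H p u) := ⟨_, rfl⟩
  have hw2 : ∀ p, w p ^ 2 ≤ R ^ 2 * lam p ^ 2 := by
    intro p
    have := pow_le_pow_left₀ (abs_nonneg _) (hw p) 2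
    rw [mul_pow, sq_abs, sq_abs] at this
    exact this
  have hwR : ∀ p, |w p| ≤ R := by
    intro p
    refine (hw p).trans ?_
    have := hD.hl p
    nlinarith
  -- the local estimates
  have hmnadd : ∀ p ∈ PP X, mn H p = mn Ht p + mn Hr p := by
    intro p hp
    have : Fact p.Prime := ⟨hPP p hp⟩
    rw [mn_eq, mn_eq, mn_eq, ← av_add, hHt, hHr]
    congr 1
    funext u
    ring
  have hmnr : ∀ p ∈ PP X, |mn Hr p| ≤ C₄ / ρ := by
    intro p hp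
    have : Fact p.Prime := ⟨hPP p hp⟩
    have h4 := hD.h4 p hp
    rw [mn_eq (fun p u => H p u ^ 4)] at h4
    rw [mn_eq, hHr]
    refine (abs_av_le _).trans ((av_mono fun u => sub_tr_abs' hρ1 (H p u)).trans ?_)
    rw [av_mul, one_div, inv_mul_eq_div]
    exact div_le_div_of_nonneg_right h4 hρ0.le
  have hmnr2 : ∀ p ∈ PP X, mn (fun p u => Hr p u ^ 2) p ≤ C₄ / ρ ^ 2 := by
    intro p hp
    have : Fact p.Prime := ⟨hPP p hp⟩
    have h4 := hD.h4 p hp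
    rw [mn_eq (fun p u => H p u ^ 4)] at h4
    rw [mn_eq (fun p u => Hr p u ^ 2), hHr]
    refine (av_mono fun u => sub_tr_sq hρ1 (H p u)).trans ?_
    rw [av_mul, one_div, inv_mul_eq_div]
    exact div_le_div_of_nonneg_right h4 (by positivity)
  have hmnsq : ∀ p ∈ PP X, mn (fun p u => H p u ^ 2) p = mn (fun p u => Ht p u ^ 2) p + mn (fun p u => Hr p u ^ 2) p := by
    intro p hp
    have : Fact p.Prime := ⟨hPP p hp⟩
    rw [mn_eq (fun p u => H p u ^ 2), mn_eq (fun p u => Ht p u ^ 2), mn_eq (fun p u => Hr p u ^ 2), ← av_add, hHt, hHr]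
    congr 1
    funext u
    exact sq_tr ρ (H p u)
  have hmnH : ∀ p ∈ PP X, |mn H p| ≤ 1 + C₄ := by
    intro p hp
    have : Fact p.Prime := ⟨hPP p hp⟩
    have h4 := hD.h4 p hp
    rw [mn_eq (fun p u => H p u ^ 4)] at h4
    rw [mn_eq]
    refine (abs_av_le _).trans ((av_mono fun u => abs_le_one_add (H p u)).trans ?_)
    rw [av_add, av_const]
    linarith
  have hvr0 : ∀ (G : (p : ℕ) → (κ → ZMod p) → ℝ), ∀ p ∈ PP X, vr G p ≤ mn (fun p u => G p u ^ 2) p := by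
    intro G p _
    unfold vr
    have := sq_nonneg (mn G p)
    linarith
  -- the bounded part
  obtain ⟨b, hb⟩ : ∃ b : ℕ → ℝ, b = fun p => 2 * ρ * R * |lam p| := ⟨_, rfl⟩
  have hbp : ∀ p, b p = 2 * ρ * R * |lam p| := fun p => by rw [hb]
  have hb0 : ∀ p, 0 ≤ b p := fun p => by
    rw [hbp]
    positivity
  have hbC : ∀ p, b p ≤ C := by
    intro p
    rw [hbp, hC]
    have := hD.hl p
    have h1 : 0 ≤ 2 * ρ * R := by positivity
    nlinarith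
  have hHtb : ∀ p ∈ PP X, ∀ u, |w p * (Ht p u - mn Ht p)| ≤ b p := by
    intro p hp u
    have : Fact p.Prime := ⟨hPP p hp⟩
    have h1 : ∀ u, |Ht p u| ≤ ρ := fun u => by
      rw [hHt]
      exact tr_abs hρ0.le _
    have h2 : |mn Ht p| ≤ ρ := by
      rw [mn_eq]
      exact abs_av_le_const h1
    rw [abs_mul, hbp]
    calc |w p| * |Ht p u - mn Ht p| ≤ (R * |lam p|) * (2 * ρ) := by
          refine mul_le_mul (hw p) ((abs_sub _ _).trans (by linarith [h1 u])) (abs_nonneg _) (by positivity)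
      _ = _ := by ring
  have hbV : ∑ p ∈ PP X, b p ^ 2 ≤ V := by
    have h1 : ∑ p ∈ PP X, b p ^ 2 = (2 * ρ * R) ^ 2 * ∑ p ∈ PP X, lam p ^ 2 := by
      rw [mul_sum]
      refine sum_congr rfl fun p _ => ?_
      rw [hbp, mul_pow, sq_abs]
    rw [h1, hV]
    have := mul_le_mul_of_nonneg_left hD.h2 (by positivity : 0 ≤ (2 * ρ * R) ^ 2)
    linarith
  have e1 := chr_k X (by have := hD.hX; omega) Ht w b (fun p _ => hb0 p) hHtb C hC1 (fun p _ => hbC p) V hV0 hbV k hk1 ((X : ℝ) ^ n) hXn N L hD.hL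
  have e1' : 4 * (Real.exp 1 * V / k) ^ k +
        (2 * k + 1) * ((X : ℝ) + 1) ^ (2 * k) * (C ^ (2 * k) * (Real.exp (Fintype.card κ * (X : ℝ) ^ (2 * k) / (X : ℝ) ^ n) - 1)) +
        ∑ p ∈ PP X, (b p ^ 3 + b p ^ 4) ≤ 3 * (ε / 16) := by
    have f2 : (2 * k + 1) * ((X : ℝ) + 1) ^ (2 * k) * (C ^ (2 * k) * (Real.exp (Fintype.card κ * (X : ℝ) ^ (2 * k) / (X : ℝ) ^ n) - 1)) ≤ ε / 16 := by
      refine le_trans ?_ (hn₂ n hnn₂ X hD.hX)
      have g1 : ((X : ℝ) + 1) ^ (2 * k) ≤ 2 ^ (2 * k) * (X : ℝ) ^ (2 * k) := by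
        rw [← mul_pow]
        exact pow_le_pow_left₀ (by linarith) (by linarith) _
      have g2 : 0 ≤ Real.exp (Fintype.card κ * (X : ℝ) ^ (2 * k) / (X : ℝ) ^ n) - 1 := by
        have : 0 ≤ (Fintype.card κ : ℝ) * (X : ℝ) ^ (2 * k) / (X : ℝ) ^ n := by positivity
        linarith [Real.one_le_exp this]
      have g3 : 0 ≤ C ^ (2 * k) * (Real.exp (Fintype.card κ * (X : ℝ) ^ (2 * k) / (X : ℝ) ^ n) - 1) := mul_nonneg (by positivity) g2
      calc (2 * k + 1) * ((X : ℝ) + 1) ^ (2 * k) * (C ^ (2 * k) * (Real.exp (Fintype.card κ * (X : ℝ) ^ (2 * k) / (X : ℝ) ^ n) - 1)) ≤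
          (2 * k + 1) * (2 ^ (2 * k) * (X : ℝ) ^ (2 * k)) * (C ^ (2 * k) * (Real.exp (Fintype.card κ * (X : ℝ) ^ (2 * k) / (X : ℝ) ^ n) - 1)) :=
            mul_le_mul_of_nonneg_right (mul_le_mul_of_nonneg_left g1 (by positivity)) g3
        _ = _ := by ring
    have f3 : ∑ p ∈ PP X, (b p ^ 3 + b p ^ 4) ≤ ε / 16 := by
      have g1 : ∀ p ∈ PP X, b p ^ 3 + b p ^ 4 ≤ (2 * ρ * R) ^ 3 * (1 + 2 * ρ * R) * |lam p| ^ 3 := by
        intro p _
        have g2 : b p ≤ 2 * ρ * R := by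
          rw [hbp]
          have := hD.hl p
          have h1 : 0 ≤ 2 * ρ * R := by positivity
          nlinarith
        have g3 : b p ^ 3 = (2 * ρ * R) ^ 3 * |lam p| ^ 3 := by
          rw [hbp, mul_pow]
        have g4 : b p ^ 3 + b p ^ 4 = b p ^ 3 * (1 + b p) := by ring
        rw [g4, g3]
        have g5 : 0 ≤ (2 * ρ * R) ^ 3 * |lam p| ^ 3 := by positivity
        nlinarith
      refine (sum_le_sum g1).trans ?_
      rw [← mul_sum]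
      exact (mul_le_mul_of_nonneg_left hD.h3 (by positivity)).trans hs2
    linarith
  -- the remainder
  obtain ⟨Bf, hBf⟩ : ∃ Bf : (κ → ℤ) → ℝ, Bf = fun t => ∑ p ∈ PP X, w p * (Hr p (fun i => (t i : ZMod p)) - mn Hr p) := ⟨_, rfl⟩
  obtain ⟨Af, hAf⟩ : ∃ Af : (κ → ℤ) → ℝ, Af = fun t => ∑ p ∈ PP X, w p * (Ht p (fun i => (t i : ZMod p)) - mn Ht p) := ⟨_, rfl⟩
  obtain ⟨cm, hcm⟩ : ∃ cm : ℝ, cm = ∑ p ∈ PP X, w p * mn H p := ⟨_, rfl⟩
  have hdec : ∀ t : κ → ℤ, ∑ p ∈ PP X, w p * H p (fun i => (t i : ZMod p)) = (Bf t + cm) + Af t := by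
    intro t
    rw [hBf, hAf, hcm, ← sum_add_distrib, ← sum_add_distrib]
    refine sum_congr rfl fun p hp => ?_
    rw [hmnadd p hp, hHt, hHr]
    ring
  have hcm1 : |cm| ≤ ε / 8 := by
    rw [hcm]
    refine (abs_sum_le_sum_abs _ _).trans ?_
    have g1 : ∀ p ∈ PP X, |w p * mn H p| ≤ R * (|lam p| * |mn H p|) := by
      intro p _
      rw [abs_mul, ← mul_assoc]
      exact mul_le_mul_of_nonneg_right (hw p) (abs_nonneg _)
    refine (sum_le_sum g1).trans ?_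
    rw [← mul_sum]
    exact (mul_le_mul_of_nonneg_left hD.hm hR.le).trans hs1
  have hBsq : av (fun t : kbox N L => Bf t ^ 2) ≤ ε ^ 2 / 16 := by
    have g1 := sq_k X Hr w (2 * R * (X : ℝ) ^ β) (by
      intro p hp u
      have : Fact p.Prime := ⟨hPP p hp⟩
      have h1 : ∀ u, |Hr p u| ≤ (X : ℝ) ^ β := fun u => by
        rw [hHr]
        exact (sub_tr_abs _ _).trans (hD.hH p hp u)
      have h2 : |mn Hr p| ≤ (X : ℝ) ^ β := by
        rw [mn_eq]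
        exact abs_av_le_const h1
      rw [abs_mul]
      calc |w p| * |Hr p u - mn Hr p| ≤ R * (2 * (X : ℝ) ^ β) := by
            refine mul_le_mul (hwR p) ((abs_sub _ _).trans (by linarith [h1 u])) (abs_nonneg _) hR.le
        _ = _ := by ring) ((X : ℝ) ^ n) hXn N L hD.hL
    have g2 : ∑ p ∈ PP X, w p ^ 2 * vr Hr p ≤ δ := by
      have g3 : ∀ p ∈ PP X, w p ^ 2 * vr Hr p ≤ R ^ 2 * (C₄ / ρ ^ 2) * lam p ^ 2 := by
        intro p hp
        have g4 := (hvr0 Hr p hp).trans (hmnr2 p hp)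
        calc w p ^ 2 * vr Hr p ≤ w p ^ 2 * (C₄ / ρ ^ 2) := mul_le_mul_of_nonneg_left g4 (sq_nonneg _)
          _ ≤ (R ^ 2 * lam p ^ 2) * (C₄ / ρ ^ 2) := mul_le_mul_of_nonneg_right (hw2 p) (by positivity)
          _ = _ := by ring
      refine (sum_le_sum g3).trans ?_
      rw [← mul_sum]
      refine (mul_le_mul_of_nonneg_left hD.h2 (by positivity)).trans (le_trans ?_ hAρ)
      rw [hA₀, le_div_iff₀ (by positivity)]
      have g5 : R ^ 2 * (C₄ / ρ ^ 2) * C₂ * ρ ^ 2 = R ^ 2 * C₂ * C₄ := by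
        field_simp
      rw [g5]
      refine mul_le_mul_of_nonneg_left ?_ (by positivity)
      nlinarith
    have g3 : (X : ℝ) ^ 2 * ((2 * R * (X : ℝ) ^ β) ^ 2 * (Real.exp (Fintype.card κ * (X : ℝ) ^ 2 / (X : ℝ) ^ n) - 1)) ≤ ε ^ 2 / 32 := by
      refine le_trans (le_of_eq ?_) (hn₁ n hnn₁ X hD.hX)
      have g4 : (X : ℝ) ^ (2 + 2 * β) = (X : ℝ) ^ 2 * ((X : ℝ) ^ β) ^ 2 := by
        rw [pow_add, mul_comm 2 β, pow_mul]
      rw [g4]
      ring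
    rw [hBf]
    linarith
  have hBabs : av (fun t : kbox N L => |Bf t + cm|) ≤ 3 * (ε / 8) := by
    have g1 : ∀ t : kbox N L, |Bf t + cm| ≤ (2 / ε) * Bf t ^ 2 + (ε / 8 + ε / 8) := by
      intro t
      refine (abs_add_le _ _).trans ?_
      have g2 : |Bf t| ≤ (2 / ε) * Bf t ^ 2 + ε / 8 := by
        rw [← sq_abs (Bf t)]
        have g3 : 0 ≤ (2 / ε) * (|Bf t| - ε / 4) ^ 2 := by positivity
        have g4 : (2 / ε) * (|Bf t| - ε / 4) ^ 2 = (2 / ε) * |Bf t| ^ 2 - |Bf t| + ε / 8 := by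
          field_simp
          ring
        linarith
      linarith
    refine (av_mono g1).trans ?_
    rw [av_add, av_mul, av_const]
    have g2 : 2 / ε * av (fun t : kbox N L => Bf t ^ 2) ≤ 2 / ε * (ε ^ 2 / 16) := mul_le_mul_of_nonneg_left hBsq (by positivity)
    have g3 : 2 / ε * (ε ^ 2 / 16) = ε / 8 := by
      field_simp
      ring
    linarith
  have e2 : ‖av (fun t : kbox N L => Complex.exp (((∑ p ∈ PP X, w p * H p (fun i => ((t : κ → ℤ) i : ZMod p)) : ℝ) : ℂ) * Complex.I)) -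
      av (fun t : kbox N L => Complex.exp (((∑ p ∈ PP X, w p * (Ht p (fun i => ((t : κ → ℤ) i : ZMod p)) - mn Ht p) : ℝ) : ℂ) * Complex.I))‖ ≤ 3 * (ε / 8) := by
    rw [← av_sub]
    refine (norm_av_le _).trans ((av_mono fun t => ?_).trans hBabs)
    have g1 := norm_exp_sub (Af t) (Bf t + cm)
    rw [← hdec] at g1
    rw [hAf] at g1
    exact g1
  -- the variances
  have e3 : ‖Complex.exp ((-((∑ p ∈ PP X, w p ^ 2 * vr Ht p) / 2) : ℝ) : ℂ) -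
      Complex.exp ((-((∑ p ∈ PP X, w p ^ 2 * mn (fun p u => H p u ^ 2) p) / 2) : ℝ) : ℂ)‖ ≤ 2 * (ε / 8) := by
    have hvrt : ∀ p ∈ PP X, 0 ≤ vr Ht p := by
      intro p hp
      have : Fact p.Prime := ⟨hPP p hp⟩
      unfold vr
      rw [mn_eq (fun p u => Ht p u ^ 2), mn_eq Ht]
      have h4 : 0 ≤ av (fun u => (Ht p u - av (Ht p)) ^ 2) := av_nonneg fun u => sq_nonneg _
      have h5 : (fun u => (Ht p u - av (Ht p)) ^ 2) = fun u => Ht p u ^ 2 - ((2 * av (Ht p)) * Ht p u - av (Ht p) ^ 2) := by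
        funext u
        ring
      rw [h5, av_sub, av_sub, av_mul, av_const] at h4
      linarith
    have g0 : 0 ≤ ∑ p ∈ PP X, w p ^ 2 * vr Ht p := sum_nonneg fun p hp => mul_nonneg (sq_nonneg _) (hvrt p hp)
    have g0' : 0 ≤ ∑ p ∈ PP X, w p ^ 2 * mn (fun p u => H p u ^ 2) p := by
      refine sum_nonneg fun p hp => mul_nonneg (sq_nonneg _) ?_
      have : Fact p.Prime := ⟨hPP p hp⟩
      rw [mn_eq (fun p u => H p u ^ 2)]
      exact av_nonneg fun u => sq_nonneg _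
    rw [← Complex.ofReal_exp, ← Complex.ofReal_exp, ← Complex.ofReal_sub, Complex.norm_real, Real.norm_eq_abs]
    refine (exp_sub_exp (by positivity) (by positivity)).trans ?_
    rw [← sub_div, ← sum_sub_distrib, abs_div, abs_of_pos (by norm_num : (0 : ℝ) < 2), div_le_iff₀ (by norm_num)]
    refine (abs_sum_le_sum_abs _ _).trans ?_
    have g1 : ∀ p ∈ PP X, |w p ^ 2 * vr Ht p - w p ^ 2 * mn (fun p u => H p u ^ 2) p| ≤
        R ^ 2 * (2 * (C₄ + 1) ^ 2 / ρ ^ 2) * lam p ^ 2 + 2 * (R ^ 2 * (1 + C₄)) * (|lam p| * |mn H p|) := by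
      intro p hp
      have g2 : vr Ht p - mn (fun p u => H p u ^ 2) p = -(mn (fun p u => Hr p u ^ 2) p + mn Ht p ^ 2) := by
        rw [hmnsq p hp]
        unfold vr
        ring
      have g3 : 0 ≤ mn (fun p u => Hr p u ^ 2) p := by
        have : Fact p.Prime := ⟨hPP p hp⟩
        rw [mn_eq (fun p u => Hr p u ^ 2)]
        exact av_nonneg fun u => sq_nonneg _
      rw [← mul_sub, g2, abs_mul, abs_neg, abs_of_nonneg (sq_nonneg (w p)), abs_of_nonneg (by positivity)]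
      have g4 : mn Ht p = mn H p - mn Hr p := by linarith [hmnadd p hp]
      have g5 : mn Ht p ^ 2 ≤ 2 * ((1 + C₄) * |mn H p|) + 2 * (C₄ ^ 2 / ρ ^ 2) := by
        have g6 : mn Hr p ^ 2 ≤ C₄ ^ 2 / ρ ^ 2 := by
          have := pow_le_pow_left₀ (abs_nonneg _) (hmnr p hp) 2
          rwa [sq_abs, div_pow] at this
        have g7 : mn H p ^ 2 ≤ (1 + C₄) * |mn H p| := by
          rw [← sq_abs, sq]
          exact mul_le_mul_of_nonneg_right (hmnH p hp) (abs_nonneg _)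
        rw [g4]
        have : (mn H p - mn Hr p) ^ 2 ≤ 2 * mn H p ^ 2 + 2 * mn Hr p ^ 2 := by nlinarith [sq_nonneg (mn H p + mn Hr p)]
        linarith
      have g8 : mn (fun p u => Hr p u ^ 2) p + mn Ht p ^ 2 ≤ 2 * (C₄ + 1) ^ 2 / ρ ^ 2 + 2 * ((1 + C₄) * |mn H p|) := by
        have g9 : C₄ / ρ ^ 2 + 2 * (C₄ ^ 2 / ρ ^ 2) ≤ 2 * (C₄ + 1) ^ 2 / ρ ^ 2 := by
          have : C₄ / ρ ^ 2 + 2 * (C₄ ^ 2 / ρ ^ 2) = (C₄ + 2 * C₄ ^ 2) / ρ ^ 2 := by ring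
          rw [this]
          refine div_le_div_of_nonneg_right ?_ (by positivity)
          nlinarith
        linarith [hmnr2 p hp]
      have g10 : 0 ≤ 2 * (C₄ + 1) ^ 2 / ρ ^ 2 + 2 * ((1 + C₄) * |mn H p|) := by positivity
      have g11 : lam p ^ 2 ≤ |lam p| := by
        rw [← sq_abs, sq]
        have := hD.hl p
        nlinarith [abs_nonneg (lam p)]
      calc w p ^ 2 * (mn (fun p u => Hr p u ^ 2) p + mn Ht p ^ 2) ≤ w p ^ 2 * (2 * (C₄ + 1) ^ 2 / ρ ^ 2 + 2 * ((1 + C₄) * |mn H p|)) :=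
            mul_le_mul_of_nonneg_left g8 (sq_nonneg _)
        _ ≤ (R ^ 2 * lam p ^ 2) * (2 * (C₄ + 1) ^ 2 / ρ ^ 2 + 2 * ((1 + C₄) * |mn H p|)) := mul_le_mul_of_nonneg_right (hw2 p) g10
        _ = R ^ 2 * (2 * (C₄ + 1) ^ 2 / ρ ^ 2) * lam p ^ 2 + 2 * (R ^ 2 * (1 + C₄)) * (lam p ^ 2 * |mn H p|) := by ring
        _ ≤ _ := by
            refine add_le_add le_rfl (mul_le_mul_of_nonneg_left ?_ (by positivity))
            exact mul_le_mul_of_nonneg_right g11 (abs_nonneg _)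
    refine (sum_le_sum g1).trans ?_
    rw [sum_add_distrib, ← mul_sum, ← mul_sum]
    have g2 : R ^ 2 * (2 * (C₄ + 1) ^ 2 / ρ ^ 2) * ∑ p ∈ PP X, lam p ^ 2 ≤ 2 * δ := by
      refine (mul_le_mul_of_nonneg_left hD.h2 (by positivity)).trans ?_
      have g3 : R ^ 2 * (2 * (C₄ + 1) ^ 2 / ρ ^ 2) * C₂ = 2 * (A₀ / ρ ^ 2) := by
        rw [hA₀]
        ring
      rw [g3]
      linarith
    have g3 : 2 * (R ^ 2 * (1 + C₄)) * ∑ p ∈ PP X, |lam p| * |mn H p| ≤ 2 * (ε / 8) := by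
      have g4 := mul_le_mul_of_nonneg_left hD.hm (by positivity : 0 ≤ 2 * (R ^ 2 * (1 + C₄)))
      linarith
    linarith
  have t1 := norm_sub_le_norm_sub_add_norm_sub (av (fun t : kbox N L => Complex.exp (((∑ p ∈ PP X, w p * H p (fun i => ((t : κ → ℤ) i : ZMod p)) : ℝ) : ℂ) * Complex.I)))
    (av (fun t : kbox N L => Complex.exp (((∑ p ∈ PP X, w p * (Ht p (fun i => ((t : κ → ℤ) i : ZMod p)) - mn Ht p) : ℝ) : ℂ) * Complex.I)))
    (Complex.exp ((-((∑ p ∈ PP X, w p ^ 2 * mn (fun p u => H p u ^ 2) p) / 2) : ℝ) : ℂ))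
  have t2 := norm_sub_le_norm_sub_add_norm_sub (av (fun t : kbox N L => Complex.exp (((∑ p ∈ PP X, w p * (Ht p (fun i => ((t : κ → ℤ) i : ZMod p)) - mn Ht p) : ℝ) : ℂ) * Complex.I)))
    (Complex.exp ((-((∑ p ∈ PP X, w p ^ 2 * vr Ht p) / 2) : ℝ) : ℂ))
    (Complex.exp ((-((∑ p ∈ PP X, w p ^ 2 * mn (fun p u => H p u ^ 2) p) / 2) : ℝ) : ℂ))
  have t3 := e1.trans e1'
  linarith

end Q285HS
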