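import Pool.Agent.Q285.HS.Pts

/-!
# The moments of the number of the points of a random member of a linear system over a finite field
-/

set_option autoImplicit false
set_option linter.unusedSectionVars false

namespace Q285HS

open Finset
open Q282.CL
open Q282MM (gm)

variable {n : ℕ} {J : Type} [Fintype J] [DecidableEq J] {d : J → ℕ} (g : J → MvPolynomial (Fin (n + 1)) ℤ) (W : Set (MvPolynomial (Fin (n + 1)) ℤ))

/-- `W` has about `p ^ D` points over the field with `p` elements, and few of them are in the base locus -/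
structure Sz (D p₀ : ℕ) (C₀ : ℝ) : Prop where
  amb : ∀ p : ℕ, p.Prime → p₀ ≤ p → |(points p W : ℝ) - (p : ℝ) ^ D| ≤ C₀ * ((p : ℝ) ^ D / Real.sqrt p)
  bas : ∀ p : ℕ, p.Prime → p₀ ≤ p → (points p (W ∪ Set.range g) : ℝ) ≤ C₀ * ((p : ℝ) ^ D / Real.sqrt p)

lemma pow_sub_one_le (v : ℝ) (h0 : 0 ≤ v) (h2 : v ≤ 2) (l : ℕ) : |v ^ l - 1| ≤ l * 2 ^ l * |v - 1| := by
  induction l with
  | zero => simp
  | succ l ih =>
    have h1 : v ^ (l + 1) - 1 = v ^ l * (v - 1) + (v ^ l - 1) := by ring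
    rw [h1]
    refine (abs_add_le _ _).trans ?_
    rw [abs_mul, abs_of_nonneg (pow_nonneg h0 l)]
    have h3 : v ^ l ≤ 2 ^ l := pow_le_pow_left₀ h0 h2 l
    have h4 := mul_le_mul_of_nonneg_right h3 (abs_nonneg (v - 1))
    have h5 : 0 ≤ (2 : ℝ) ^ l * |v - 1| := by positivity
    have h6 : (((l + 1 : ℕ) : ℝ)) * 2 ^ (l + 1) * |v - 1| = (2 * l + 2) * (2 ^ l * |v - 1|) := by
      push_cast
      ring
    rw [h6]
    have h7 : (l : ℝ) * 2 ^ l * |v - 1| = l * (2 ^ l * |v - 1|) := by ring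
    have h8 : (0 : ℝ) ≤ l := Nat.cast_nonneg l
    nlinarith

variable {g W}

/-- **the local moments are close to those of the normal law** -/
theorem loc_mom {D p₀ : ℕ} {C₀ : ℝ} (hD : 2 ≤ D) (hsz : Sz g W D p₀ C₀) (k : ℕ) (hd : ∀ j, k ≤ d j + 1) :
    ∃ (K : ℝ) (p₁ : ℕ), 1 ≤ K ∧ ∀ p : ℕ, p.Prime → p₁ ≤ p → ∀ j ≤ k,
      |mn (fun p c => HH (d := d) g W D p c ^ j) p - (gm j : ℝ)| ≤ K / Real.sqrt p := by
  obtain ⟨C, hC, hmom⟩ := mom_near k
  obtain ⟨G, hG⟩ : ∃ G : ℝ, G = ∑ j ∈ range (k + 1), (gm j : ℝ) := ⟨_, rfl⟩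
  have hGj : ∀ j ≤ k, (gm j : ℝ) ≤ G := fun j hj => by
    rw [hG]
    exact single_le_sum (f := fun j => (gm j : ℝ)) (fun i _ => Nat.cast_nonneg _) (mem_range.2 (by omega))
  have hG0 : 0 ≤ G := (Nat.cast_nonneg _).trans (hGj 0 (by omega))
  obtain ⟨C₁, hC₁⟩ : ∃ C₁ : ℝ, C₁ = |C₀| + 1 := ⟨_, rfl⟩
  have hC₁0 : 1 ≤ C₁ := by
    rw [hC₁]
    linarith [abs_nonneg C₀]
  have hCC : C₀ ≤ C₁ := by
    rw [hC₁]
    linarith [le_abs_self C₀]
  obtain ⟨k₀, hk₀⟩ := exists_nat_ge ((4 * C₁) ^ 2)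
  refine ⟨C * 2 ^ k + G * (k * 2 ^ k * (2 * C₁ + 2)), max p₀ (k₀ + 4), ?_, ?_⟩
  · have h1 : (1 : ℝ) ≤ 2 ^ k := one_le_pow₀ (by norm_num)
    have h2 : 0 ≤ G * (k * 2 ^ k * (2 * C₁ + 2)) := by positivity
    nlinarith
  intro p hpr hp j hj
  have : Fact p.Prime := ⟨hpr⟩
  have hpp₀ : p₀ ≤ p := (le_max_left _ _).trans hp
  have hpk : k₀ + 4 ≤ p := (le_max_right _ _).trans hp
  have hp4 : (4 : ℝ) ≤ p := by exact_mod_cast (by omega : 4 ≤ p)
  have hp0 : (0 : ℝ) < p := by linarith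
  have hs0 : 0 < Real.sqrt p := Real.sqrt_pos.2 hp0
  have hss : Real.sqrt p * Real.sqrt p = p := Real.mul_self_sqrt hp0.le
  have hs4 : 4 * C₁ ≤ Real.sqrt p := by
    refine Real.le_sqrt_of_sq_le (hk₀.trans ?_)
    exact_mod_cast (by omega : k₀ ≤ p)
  have hs1 : 1 ≤ Real.sqrt p := by linarith
  -- the number of the points
  obtain ⟨N, hN⟩ : ∃ N : ℝ, N = ((AA g W p).card : ℝ) := ⟨_, rfl⟩
  have hpD : 0 < (p : ℝ) ^ D := by positivity
  have hN1 : |N / (p : ℝ) ^ D - 1| ≤ 2 * C₁ / Real.sqrt p := by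
    have h1 := hsz.amb p hpr hpp₀
    have h2 := hsz.bas p hpr hpp₀
    have h3 := card_AA g W p
    rw [← hN] at h3
    have h4 : (0 : ℝ) ≤ points p (W ∪ Set.range g) := Nat.cast_nonneg _
    have h5 : C₀ * ((p : ℝ) ^ D / Real.sqrt p) ≤ C₁ * ((p : ℝ) ^ D / Real.sqrt p) := mul_le_mul_of_nonneg_right hCC (by positivity)
    have h6 : N / (p : ℝ) ^ D - 1 = (N - (p : ℝ) ^ D) / (p : ℝ) ^ D := by field_simp
    rw [h6, abs_div, abs_of_pos hpD, div_le_iff₀ hpD]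
    have h7 : 2 * C₁ / Real.sqrt p * (p : ℝ) ^ D = 2 * (C₁ * ((p : ℝ) ^ D / Real.sqrt p)) := by ring
    have h8 : 0 ≤ C₁ * ((p : ℝ) ^ D / Real.sqrt p) := by positivity
    rw [h7, abs_le]
    rw [abs_le] at h1
    constructor <;> linarith [h1.1, h1.2]
  have hN2 : |N / (p : ℝ) ^ D - 1| ≤ 1 / 2 := by
    refine hN1.trans ?_
    rw [div_le_iff₀ hs0]
    linarith
  have hN3 : (p : ℝ) ^ D / 2 ≤ N ∧ N ≤ 2 * (p : ℝ) ^ D := by
    rw [abs_le] at hN2
    have h1 : 1 / 2 ≤ N / (p : ℝ) ^ D := by linarith [hN2.1]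
    have h2 : N / (p : ℝ) ^ D ≤ 2 := by linarith [hN2.2]
    rw [le_div_iff₀ hpD] at h1
    rw [div_le_iff₀ hpD] at h2
    constructor <;> linarith
  have hNp : (p : ℝ) ≤ N := by
    have h1 : (p : ℝ) ^ 2 ≤ (p : ℝ) ^ D := pow_le_pow_right₀ (by linarith) hD
    nlinarith [hN3.1]
  obtain ⟨s, hs⟩ : ∃ s : ℝ, s = Real.sqrt p ^ (D - 1) := ⟨_, rfl⟩
  have hs_pos : 0 < s := by
    rw [hs]
    positivity
  have hs2 : s ^ 2 = (p : ℝ) ^ (D - 1) := by
    rw [hs, ← pow_mul, mul_comm, pow_mul, pow_two, hss]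
  have hsp : Real.sqrt p ≤ s := by
    rw [hs]
    exact le_self_pow₀ hs1 (by omega)
  have hpDD : (p : ℝ) ^ D = p * (p : ℝ) ^ (D - 1) := by
    rw [← pow_succ']
    congr 1
    omega
  obtain ⟨r, hr⟩ : ∃ r : ℝ, r = Real.sqrt (N / p) := ⟨_, rfl⟩
  have hNp1 : 1 ≤ N / p := by
    rw [le_div_iff₀ hp0]
    linarith
  have hr1 : 1 ≤ r := by
    rw [hr]
    exact Real.one_le_sqrt.2 hNp1
  have hr2 : r ^ 2 = N / p := by
    rw [hr, Real.sq_sqrt (by linarith)]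
  have hrs : r ≤ 2 * s := by
    refine abs_le_of_sq_le_sq' ?_ (by positivity) |>.2
    rw [mul_pow, hs2, hr2, div_le_iff₀ hp0]
    have h1 := hN3.2
    rw [hpDD] at h1
    have h2 : 0 ≤ (p : ℝ) * (p : ℝ) ^ (D - 1) := by positivity
    nlinarith
  have hN0 : 0 ≤ N := by linarith
  obtain ⟨σ, hσ⟩ : ∃ σ : ℝ, σ = 1 / (p : ℝ) * (1 - 1 / p) := ⟨_, rfl⟩
  have hp1 : 1 / (p : ℝ) ≤ 1 := by
    rw [div_le_one hp0]
    linarith
  have hp10 : 0 < 1 / (p : ℝ) := by positivity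
  have hσ0 : 0 ≤ σ := by
    rw [hσ]
    exact mul_nonneg hp10.le (by linarith)
  have hσ1 : σ ≤ 1 / p := by
    rw [hσ]
    nlinarith
  have hm := hmom _ _ _ (ev (d := d) g p) (fun _ => ph p) k (p : ℝ) r σ (by linarith) hr1 hσ0 hσ1 (AA g W p) (sep_AA g W p hd)
    (fun t _ => by rw [hσ]; exact loc_ph p) (by
      rw [← hN, hr2]
      have : N / p = N * (1 / p) := by ring
      rw [this]
      exact mul_le_mul_of_nonneg_left hσ1 hN0) (by
      rw [← hN, hr2]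
      field_simp
      exact le_refl _) j hj hj
  rw [← hN] at hm
  have e0 : mn (fun p c => HH (d := d) g W D p c ^ j) p = av (fun c => sm (ev (d := d) g p) (AA g W p) (fun _ => ph p) c ^ j) / s ^ j := by
    rw [mn_eq]
    have h1 : (fun c => HH (d := d) g W D p c ^ j) = fun c => (1 / s ^ j) * sm (ev (d := d) g p) (AA g W p) (fun _ => ph p) c ^ j := by
      funext c
      rw [HH_eq, ← hs, div_pow]
      ring
    rw [h1, av_mul]
    ring
  rw [e0]
  have hsj : 0 < s ^ j := pow_pos hs_pos j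
  obtain ⟨v, hv⟩ : ∃ v : ℝ, v = N / (p : ℝ) ^ D * (1 - 1 / p) := ⟨_, rfl⟩
  have hv0 : 0 ≤ v := by
    rw [hv]
    exact mul_nonneg (by positivity) (by linarith)
  have hv2 : v ≤ 2 := by
    have h1 : N / (p : ℝ) ^ D ≤ 2 := by
      rw [div_le_iff₀ hpD]
      exact hN3.2
    rw [hv]
    have h2 : 0 ≤ N / (p : ℝ) ^ D := by positivity
    nlinarith
  have hv1 : |v - 1| ≤ (2 * C₁ + 2) / Real.sqrt p := by
    have h1 : v - 1 = (N / (p : ℝ) ^ D - 1) - N / (p : ℝ) ^ D * (1 / p) := by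
      rw [hv]
      ring
    rw [h1]
    refine (abs_sub _ _).trans ?_
    have h2 : |N / (p : ℝ) ^ D * (1 / p)| ≤ 2 / Real.sqrt p := by
      rw [abs_of_nonneg (by positivity)]
      have h3 : N / (p : ℝ) ^ D ≤ 2 := by
        rw [div_le_iff₀ hpD]
        exact hN3.2
      have h4 : 1 / (p : ℝ) ≤ 1 / Real.sqrt p := by
        refine one_div_le_one_div_of_le hs0 ?_
        nlinarith
      calc N / (p : ℝ) ^ D * (1 / p) ≤ 2 * (1 / Real.sqrt p) := mul_le_mul h3 h4 hp10.le (by norm_num)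
        _ = _ := by ring
    have h3 : (2 * C₁ + 2) / Real.sqrt p = 2 * C₁ / Real.sqrt p + 2 / Real.sqrt p := by ring
    rw [h3]
    linarith
  -- the main term
  have hmain : |(gm j : ℝ) * (N * σ) ^ (j / 2) / s ^ j - (gm j : ℝ)| ≤ G * (k * 2 ^ k * (2 * C₁ + 2)) / Real.sqrt p := by
    by_cases he : Even j
    · obtain ⟨l, hl⟩ := he
      have hjl : j = 2 * l := by omega
      have h1 : j / 2 = l := by omega
      have h2 : (N * σ) ^ (j / 2) / s ^ j = v ^ l := by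
        rw [h1, hjl, pow_mul, hs2, ← div_pow]
        congr 1
        rw [hv, hσ, hpDD]
        field_simp
      have h3 : (gm j : ℝ) * (N * σ) ^ (j / 2) / s ^ j - (gm j : ℝ) = (gm j : ℝ) * (v ^ l - 1) := by
        rw [mul_div_assoc, h2]
        ring
      rw [h3, abs_mul, Nat.abs_cast]
      have h4 := pow_sub_one_le v hv0 hv2 l
      have h5 : (l : ℝ) * 2 ^ l * |v - 1| ≤ k * 2 ^ k * ((2 * C₁ + 2) / Real.sqrt p) := by
        have h6 : (l : ℝ) ≤ k := by exact_mod_cast (by omega : l ≤ k)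
        have h7 : (2 : ℝ) ^ l ≤ 2 ^ k := pow_le_pow_right₀ (by norm_num) (by omega)
        have h8 := abs_nonneg (v - 1)
        gcongr
      calc (gm j : ℝ) * |v ^ l - 1| ≤ G * (k * 2 ^ k * ((2 * C₁ + 2) / Real.sqrt p)) :=
            mul_le_mul (hGj j hj) (h4.trans h5) (abs_nonneg _) hG0
        _ = _ := by ring
    · rw [gm_odd he]
      simp only [Nat.cast_zero, zero_mul, zero_div, sub_zero, abs_zero]
      positivity
  have herr : |av (fun c => sm (ev (d := d) g p) (AA g W p) (fun _ => ph p) c ^ j) / s ^ j - (gm j : ℝ) * (N * σ) ^ (j / 2) / s ^ j| ≤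
      C * 2 ^ k / Real.sqrt p := by
    rcases Nat.eq_zero_or_pos j with hj0 | hj0
    · subst hj0
      simp only [pow_zero, div_one, Nat.zero_div, mul_one]
      rw [av_const, gm_zero, Nat.cast_one, sub_self, abs_zero]
      positivity
    · rw [← sub_div, abs_div, abs_of_pos hsj, div_le_iff₀ hsj]
      refine hm.trans ?_
      have h1 : r ^ (j - 1) ≤ 2 ^ k * s ^ (j - 1) := by
        refine (pow_le_pow_left₀ (by linarith) hrs (j - 1)).trans ?_
        rw [mul_pow]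
        refine mul_le_mul_of_nonneg_right ?_ (by positivity)
        exact pow_le_pow_right₀ (by norm_num) (by omega)
      have h2 : s ^ j = s * s ^ (j - 1) := by
        rw [← pow_succ']
        congr 1
        omega
      rw [h2]
      have h3 : C * 2 ^ k / Real.sqrt p * (s * s ^ (j - 1)) = C * (2 ^ k * s ^ (j - 1)) * (s / Real.sqrt p) := by ring
      rw [h3]
      have h4 : 1 ≤ s / Real.sqrt p := by
        rw [le_div_iff₀ hs0]
        linarith
      have h5 : C * r ^ (j - 1) ≤ C * (2 ^ k * s ^ (j - 1)) := mul_le_mul_of_nonneg_left h1 (by linarith)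
      have h6 : 0 ≤ C * (2 ^ k * s ^ (j - 1)) := by positivity
      nlinarith
  have hfin := abs_sub_le (av (fun c => sm (ev (d := d) g p) (AA g W p) (fun _ => ph p) c ^ j) / s ^ j)
    ((gm j : ℝ) * (N * σ) ^ (j / 2) / s ^ j) (gm j : ℝ)
  have h9 : (C * 2 ^ k + G * (k * 2 ^ k * (2 * C₁ + 2))) / Real.sqrt p =
      C * 2 ^ k / Real.sqrt p + G * (k * 2 ^ k * (2 * C₁ + 2)) / Real.sqrt p := by ring
  rw [h9]
  linarith

end Q285HS
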